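import Pool.Agent.H10.M546.Family

set_option autoImplicit false
set_option linter.style.haveILetI false

/-!
From the examples to lower bounds for `α(d,4,s)`, and the upper bound of Fraser.
-/

open Finset

namespace Pool.Agent.H10.M546

theorem ev (x : ℝ) (hx : 0 < x) (B : ℝ) : ∃ N : ℕ, ∀ p : ℕ, N ≤ p → B < (p : ℝ) ^ x := by
  have h := (tendsto_rpow_atTop hx).comp tendsto_natCast_atTop_atTop
  exact Filter.eventually_atTop.1 (h.eventually_gt_atTop B)

theorem distSet_mono {F : Type} [Field F] [DecidableEq F] {d : ℕ} {A B : Finset (Fin d → F)}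
    (h : A ⊆ B) : distSet A ⊆ distSet B :=
  image_subset_image (product_subset_product h h)

theorem lower (d b : ℕ) (hd : 0 < d) (hb : b < 4 * d) (hF : Fam d b) (s : ℝ) (hs : 1 / 4 ≤ s)
    (hs2 : s ≤ 1 / 2) (α : ℝ) (hG : Good d s α) :
    min ((d : ℝ) / 2) ((4 * d - b) / (8 * s)) ≤ α := by
  by_contra hcon
  push Not at hcon
  obtain ⟨A, hA0, HF⟩ := hF
  have hd' : (0 : ℝ) < d := by exact_mod_cast hd
  have hb' : (b : ℝ) < 4 * d := by exact_mod_cast hb
  have hs0 : 0 < s := by linarith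
  have hmin : 0 < min ((d : ℝ) / 2) ((4 * d - b) / (8 * s)) :=
    lt_min (by positivity) (div_pos (by linarith) (by linarith))
  obtain ⟨β, hβ1, hβ2⟩ := exists_between (max_lt hcon hmin)
  obtain ⟨hαβ, hβ0⟩ := max_lt_iff.1 hβ1
  obtain ⟨hβd, hβs⟩ := lt_min_iff.1 hβ2
  rw [lt_div_iff₀ (by positivity)] at hβs
  -- the exponent
  obtain ⟨n, hn⟩ := exists_nat_gt (1 / (d / 2 - β) + 4 / (4 * d - b - β * (8 * s)) + 1)
  have hδ1 : 0 < (d : ℝ) / 2 - β := by linarith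
  have hδ2 : 0 < 4 * (d : ℝ) - b - β * (8 * s) := by linarith
  have hn1 : 1 / ((d : ℝ) / 2 - β) < n := by
    have : 0 < 4 / (4 * (d : ℝ) - b - β * (8 * s)) := by positivity
    linarith
  have hn2 : 4 / (4 * (d : ℝ) - b - β * (8 * s)) < n := by
    have : 0 < 1 / ((d : ℝ) / 2 - β) := by positivity
    linarith
  rw [div_lt_iff₀ hδ1] at hn1
  rw [div_lt_iff₀ hδ2] at hn2
  set h : ℕ := 2 * n + 1 with hh
  have hodd : Odd h := ⟨n, rfl⟩
  have hhr : (h : ℝ) = 2 * n + 1 := by rw [hh]; push_cast; ring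
  have hn0 : (0 : ℝ) ≤ n := Nat.cast_nonneg n
  have hh0 : (0 : ℝ) < h := by rw [hhr]; linarith
  -- `2 h β < d h - 1`
  have hex1 : 0 < (d : ℝ) * h - 1 - 2 * h * β := by
    rw [hhr]; nlinarith
  have hex2 : (b : ℝ) * h - 4 * (d * h - 1) ≤ 2 * h * β * (-(4 * s)) := by
    rw [hhr]; nlinarith
  have hex3 : 0 < 2 * h * (β - α) := by
    have : 0 < β - α := by linarith
    positivity
  have hex4 : 0 < 2 * h * β := by positivity
  set A' : ℝ := (A : ℝ) with hA'
  have hA1 : (1 : ℝ) ≤ A' := by rw [hA']; exact_mod_cast hA0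
  obtain ⟨C, c, hC, hc, HG⟩ := hG (4 * A' ^ 5 + 4) (by positivity)
  obtain ⟨N1, hN1⟩ := ev _ hex1 (2 * A')
  obtain ⟨N2, hN2⟩ := ev _ hex3 C
  obtain ⟨N3, hN3⟩ := ev _ hex4 3
  obtain ⟨N4, hN4⟩ := exists_nat_gt (2 / c)
  obtain ⟨p, hp, hpN, hp4⟩ := Nat.exists_prime_gt_modEq_one (k := 4) (N1 + N2 + N3 + N4)
    (by norm_num)
  have hp4' : p % 4 = 1 := hp4
  have g1 := hN1 p (by omega)
  have g2 := hN2 p (by omega)
  have g3 := hN3 p (by omega)
  have g4 : 2 / c < p := by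
    have : (N4 : ℝ) ≤ p := by exact_mod_cast (by omega : N4 ≤ p)
    linarith
  obtain ⟨F, iF, iFt, iFd, i, E, h2, hi, hcard, hE1, hE2, hE3⟩ := HF h hodd p hp hp4'
  have hp0 : (0 : ℝ) < p := by exact_mod_cast hp.pos
  have hp1 : (1 : ℝ) ≤ p := by exact_mod_cast hp.one_le
  set q : ℝ := (Fintype.card F : ℝ) with hq
  have hqp : q = (p : ℝ) ^ (2 * (h : ℝ)) := by
    rw [hq, hcard]
    push_cast
    rw [← Real.rpow_natCast]
    push_cast
    rfl
  have hq0 : 0 < q := by rw [hqp]; positivity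
  set X : ℝ := (p : ℝ) ^ (2 * h * β) with hX
  have hXq : q ^ β = X := by rw [hqp, ← Real.rpow_mul hp0.le]
  have hX3 : 3 < X := g3
  set k : ℕ := ⌈X⌉₊ with hk
  have hk1 : X ≤ k := Nat.le_ceil X
  have hk2 : (k : ℝ) < X + 1 := Nat.ceil_lt_add_one (by linarith)
  have hk3 : (k : ℝ) ≤ 2 * X := by linarith
  have hk4 : 4 ≤ k := by
    have : (3 : ℝ) < k := by linarith
    have : 3 < k := by exact_mod_cast this
    omega
  -- size of `E`
  set Y : ℝ := (p : ℝ) ^ ((d : ℝ) * h - 1) with hY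
  have hY0 : 0 < Y := by positivity
  have hEY : Y ≤ A' * E.card := by
    have e1 : ((p ^ (d * h) : ℕ) : ℝ) ≤ ((A * p * E.card : ℕ) : ℝ) := by exact_mod_cast hE1
    push_cast at e1
    have e2 : (p : ℝ) ^ (d * h) = Y * p := by
      rw [hY, ← Real.rpow_natCast]
      push_cast
      rw [Real.rpow_sub hp0, Real.rpow_one, div_mul_cancel₀ _ hp0.ne']
    rw [e2] at e1
    have e3 : Y * p ≤ (A' * E.card) * p := by rw [hA']; linarith
    exact le_of_mul_le_mul_right e3 hp0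
  have hXY : 2 * A' * X ≤ Y := by
    have e1 : Y = (p : ℝ) ^ ((d : ℝ) * h - 1 - 2 * h * β) * X := by
      rw [hY, hX, ← Real.rpow_add hp0]
      congr 1
      ring
    rw [e1]
    exact mul_le_mul_of_nonneg_right g1.le (by linarith)
  have hkE : k ≤ E.card := by
    have e1 : A' * (2 * X) ≤ A' * E.card := by linarith
    have e2 : 2 * X ≤ E.card := le_of_mul_le_mul_left e1 (by linarith)
    have : (k : ℝ) ≤ E.card := hk3.trans e2
    exact_mod_cast this
  obtain ⟨S, hSE, hSk, hSen⟩ := exists_subset_energy E k hk4 hkE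
  -- energy of `S`
  have hkpos : (0 : ℝ) < k := by linarith
  have hk1' : (1 : ℝ) ≤ k := by linarith
  have hEpos : (0 : ℝ) < E.card := by
    have : 0 < E.card := by omega
    exact_mod_cast this
  have hen : (energy S : ℝ) ≤ (4 * A' ^ 5 + 4) * (k : ℝ) ^ (4 - 4 * s) := by
    have e1 : (energy S : ℝ) * (E.card : ℝ) ^ 4 ≤
        (k : ℝ) ^ 4 * (energy E : ℝ) + 4 * (k : ℝ) ^ 2 * (E.card : ℝ) ^ 4 := by
      exact_mod_cast hSen
    have e2 : (energy E : ℝ) ≤ A' * (p : ℝ) ^ ((b : ℝ) * h) := by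
      have : ((energy E : ℕ) : ℝ) ≤ ((A * p ^ (b * h) : ℕ) : ℝ) := by exact_mod_cast hE2
      push_cast at this
      rw [← Real.rpow_natCast] at this
      push_cast at this
      exact this
    -- `energy E ≤ A^5 |E|^4 X^(-4s)`
    have e3 : (energy E : ℝ) ≤ A' ^ 5 * (E.card : ℝ) ^ 4 * X ^ (-(4 * s)) := by
      have f1 : (p : ℝ) ^ ((b : ℝ) * h) ≤ Y ^ 4 * X ^ (-(4 * s)) := by
        have f2 : Y ^ 4 = (p : ℝ) ^ (4 * ((d : ℝ) * h - 1)) := by
          rw [hY, ← Real.rpow_natCast, ← Real.rpow_mul hp0.le]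
          congr 1
          push_cast
          ring
        rw [f2, hX, ← Real.rpow_mul hp0.le, ← Real.rpow_add hp0]
        exact Real.rpow_le_rpow_of_exponent_le hp1 (by linarith)
      have f3 : Y ^ 4 ≤ (A' * E.card) ^ 4 := pow_le_pow_left₀ hY0.le hEY 4
      have f4 : 0 ≤ X ^ (-(4 * s)) := by positivity
      calc (energy E : ℝ) ≤ A' * (p : ℝ) ^ ((b : ℝ) * h) := e2
        _ ≤ A' * (Y ^ 4 * X ^ (-(4 * s))) := mul_le_mul_of_nonneg_left f1 (by linarith)
        _ ≤ A' * ((A' * E.card) ^ 4 * X ^ (-(4 * s))) :=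
            mul_le_mul_of_nonneg_left (mul_le_mul_of_nonneg_right f3 f4) (by linarith)
        _ = _ := by ring
    have e4 : X ^ (-(4 * s)) ≤ 4 * (k : ℝ) ^ (-(4 * s)) := by
      have f1 : X ^ (-(4 * s)) ≤ ((k : ℝ) / 2) ^ (-(4 * s)) :=
        Real.rpow_le_rpow_of_nonpos (by positivity) (by linarith) (by linarith)
      have f2 : ((k : ℝ) / 2) ^ (-(4 * s)) = (2 : ℝ) ^ (4 * s) * (k : ℝ) ^ (-(4 * s)) := by
        rw [Real.div_rpow hkpos.le (by norm_num), Real.rpow_neg (by norm_num : (0 : ℝ) ≤ 2)]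
        field_simp
      have f3 : (2 : ℝ) ^ (4 * s) ≤ 4 := by
        calc (2 : ℝ) ^ (4 * s) ≤ (2 : ℝ) ^ (2 : ℝ) :=
              Real.rpow_le_rpow_of_exponent_le (by norm_num) (by linarith)
          _ = 4 := by norm_num
      rw [f2] at f1
      exact f1.trans (mul_le_mul_of_nonneg_right f3 (by positivity))
    have e5 : (k : ℝ) ^ 2 ≤ (k : ℝ) ^ (4 - 4 * s) := by
      calc (k : ℝ) ^ 2 = (k : ℝ) ^ (2 : ℝ) := by norm_num
        _ ≤ (k : ℝ) ^ (4 - 4 * s) := Real.rpow_le_rpow_of_exponent_le hk1' (by linarith)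
    have e6 : (k : ℝ) ^ 4 * (k : ℝ) ^ (-(4 * s)) = (k : ℝ) ^ (4 - 4 * s) := by
      rw [← Real.rpow_natCast, ← Real.rpow_add hkpos]
      congr 1
    have hE4 : (0 : ℝ) < (E.card : ℝ) ^ 4 := by positivity
    have e7 : (energy S : ℝ) * (E.card : ℝ) ^ 4 ≤
        ((4 * A' ^ 5 + 4) * (k : ℝ) ^ (4 - 4 * s)) * (E.card : ℝ) ^ 4 := by
      have f1 : (k : ℝ) ^ 4 * (energy E : ℝ) ≤
          (k : ℝ) ^ 4 * (A' ^ 5 * (E.card : ℝ) ^ 4 * (4 * (k : ℝ) ^ (-(4 * s)))) := by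
        refine mul_le_mul_of_nonneg_left (e3.trans ?_) (by positivity)
        exact mul_le_mul_of_nonneg_left e4 (by positivity)
      have f2 : (k : ℝ) ^ 4 * (A' ^ 5 * (E.card : ℝ) ^ 4 * (4 * (k : ℝ) ^ (-(4 * s)))) =
          (4 * A' ^ 5 * (k : ℝ) ^ (4 - 4 * s)) * (E.card : ℝ) ^ 4 := by
        rw [← e6]; ring
      have f3 : 4 * (k : ℝ) ^ 2 * (E.card : ℝ) ^ 4 ≤
          (4 * (k : ℝ) ^ (4 - 4 * s)) * (E.card : ℝ) ^ 4 :=
        mul_le_mul_of_nonneg_right (by linarith) hE4.le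
      calc _ ≤ _ := e1
        _ ≤ (4 * A' ^ 5 * (k : ℝ) ^ (4 - 4 * s)) * (E.card : ℝ) ^ 4 +
            (4 * (k : ℝ) ^ (4 - 4 * s)) * (E.card : ℝ) ^ 4 := by linarith
        _ = _ := by ring
    exact le_of_mul_le_mul_right e7 hE4
  -- apply `Good`
  have hfin := HG F h2 S (by
    rw [hSk]
    refine hen.trans ?_
    refine mul_le_mul_of_nonneg_left ?_ (by positivity)
    have : 0 ≤ (Fintype.card F : ℝ) ^ (-(d : ℝ)) * (k : ℝ) ^ 4 := by positivity
    linarith) (by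
    rw [hSk]
    refine le_trans ?_ hk1
    have e1 : X = (p : ℝ) ^ (2 * h * (β - α)) * q ^ α := by
      rw [hX, hqp, ← Real.rpow_mul hp0.le, ← Real.rpow_add hp0]
      congr 1
      ring
    rw [e1]
    exact mul_le_mul_of_nonneg_right g2.le (by positivity))
  have hds : ((distSet S).card : ℝ) ≤ ((distSet E).card : ℝ) := by
    exact_mod_cast card_le_card (distSet_mono hSE)
  have hE3' : ((distSet E).card : ℝ) * p ≤ 2 * q := by
    have : (((distSet E).card * p : ℕ) : ℝ) ≤ ((2 * p ^ (2 * h) : ℕ) : ℝ) := by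
      exact_mod_cast hE3
    push_cast at this
    rw [hq, hcard]
    push_cast
    exact this
  have e1 : c * q * p ≤ 2 * q := by
    calc c * q * p ≤ (distSet S).card * p := mul_le_mul_of_nonneg_right hfin hp0.le
      _ ≤ (distSet E).card * p := mul_le_mul_of_nonneg_right hds hp0.le
      _ ≤ 2 * q := hE3'
  have e2 : c * p ≤ 2 := by
    have : (c * p) * q ≤ 2 * q := by linarith
    exact le_of_mul_le_mul_right this hq0
  rw [div_lt_iff₀ hc] at g4
  linarith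

end Pool.Agent.H10.M546
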