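import Pool.Agent.H10.M546.Defs

set_option autoImplicit false

/-!
Combinatorial lemmas: collision counts, additive energy, and dense subsets of small energy.
-/

open Finset

namespace Pool.Agent.H10.M546

/-- The number of pairs of elements of `T` with the same image. -/
def coll {ι G : Type} [DecidableEq G] (T : Finset ι) (f : ι → G) : ℕ :=
  ((T ×ˢ T).filter (fun x => f x.1 = f x.2)).card

theorem coll_eq_sum {ι G : Type} [DecidableEq G] (T : Finset ι) (f : ι → G) :
    coll T f = ∑ t ∈ T, (T.filter (fun u => f u = f t)).card := by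
  unfold coll
  rw [card_filter, sum_product]
  refine sum_congr rfl fun t _ => ?_
  rw [card_filter]
  refine sum_congr rfl fun u _ => ?_
  by_cases h : f t = f u
  · simp [h]
  · rw [if_neg h, if_neg (fun h' => h h'.symm)]

theorem coll_eq_sum_sq {ι G : Type} [DecidableEq G] (T : Finset ι) (f : ι → G) (S : Finset G)
    (hS : ∀ t ∈ T, f t ∈ S) :
    coll T f = ∑ g ∈ S, (T.filter (fun u => f u = g)).card ^ 2 := by
  rw [coll_eq_sum, ← sum_fiberwise_of_maps_to hS]
  refine sum_congr rfl fun g _ => ?_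
  have : ∀ t ∈ T.filter (fun u => f u = g),
      (T.filter (fun u => f u = f t)).card = (T.filter (fun u => f u = g)).card := by
    intro t ht
    rw [(mem_filter.1 ht).2]
  rw [sum_congr rfl this, sum_const, smul_eq_mul, sq]

theorem coll_le_of_fiber {ι G : Type} [DecidableEq G] (T : Finset ι) (f : ι → G) (R : ℕ)
    (h : ∀ t ∈ T, (T.filter (fun u => f u = f t)).card ≤ R) : coll T f ≤ T.card * R := by
  rw [coll_eq_sum]
  exact sum_le_card_nsmul T _ R h

theorem coll_mono {ι G H : Type} [DecidableEq G] [DecidableEq H] (T : Finset ι) (f : ι → G)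
    (g : ι → H) (h : ∀ t ∈ T, ∀ u ∈ T, f t = f u → g t = g u) : coll T f ≤ coll T g := by
  unfold coll
  refine card_le_card fun x hx => ?_
  rw [mem_filter, mem_product] at hx ⊢
  exact ⟨hx.1, h _ hx.1.1 _ hx.1.2 hx.2⟩

theorem coll_split {ι G : Type} [DecidableEq G] (T : Finset ι) (f : ι → G) (P : ι → Prop)
    [DecidablePred P] :
    coll T f ≤ 2 * coll (T.filter P) f + 2 * coll (T.filter (fun t => ¬ P t)) f := by
  have h0 : ∀ t ∈ T, f t ∈ T.image f := fun t ht => mem_image_of_mem f ht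
  rw [coll_eq_sum_sq T f (T.image f) h0,
    coll_eq_sum_sq (T.filter P) f (T.image f) (fun t ht => h0 t (mem_filter.1 ht).1),
    coll_eq_sum_sq (T.filter (fun t => ¬ P t)) f (T.image f)
      (fun t ht => h0 t (mem_filter.1 ht).1), mul_sum, mul_sum, ← sum_add_distrib]
  refine sum_le_sum fun g _ => ?_
  have h1 : (T.filter (fun u => f u = g)).card =
      ((T.filter P).filter (fun u => f u = g)).card +
      ((T.filter (fun t => ¬ P t)).filter (fun u => f u = g)).card := by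
    rw [filter_comm P, filter_comm (fun t => ¬ P t)]
    exact (card_filter_add_card_filter_not P).symm
  rw [h1]
  generalize ((T.filter P).filter (fun u => f u = g)).card = a
  generalize ((T.filter (fun t => ¬ P t)).filter (fun u => f u = g)).card = b
  zify
  nlinarith [sq_nonneg ((a : ℤ) - b)]

/-- The energy of an image is at most the number of collisions of sums of parameters. -/
theorem energy_image_le {ι G : Type} [AddCommGroup G] [DecidableEq G]
    (P : Finset ι) (f : ι → G) :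
    energy (P.image f) ≤ coll (P ×ˢ P) (fun t => f t.1 + f t.2) := by
  classical
  unfold energy coll
  refine (card_le_card (t := (((P ×ˢ P) ×ˢ (P ×ˢ P)).filter
    (fun x => f x.1.1 + f x.1.2 = f x.2.1 + f x.2.2)).image
    (fun x => (f x.1.1, f x.1.2, f x.2.1, f x.2.2))) ?_).trans card_image_le
  rintro ⟨a, b, c, d⟩ h
  simp only [mem_filter, mem_product, mem_image] at h ⊢
  obtain ⟨⟨⟨a', ha, rfl⟩, ⟨b', hb, rfl⟩, ⟨c', hc, rfl⟩, ⟨d', hd, rfl⟩⟩, h⟩ := h
  exact ⟨⟨⟨a', b'⟩, ⟨c', d'⟩⟩, ⟨⟨⟨ha, hb⟩, ⟨hc, hd⟩⟩, h⟩, rfl⟩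

theorem energy_mono {G : Type} [AddCommGroup G] [DecidableEq G] {A B : Finset G} (h : A ⊆ B) :
    energy A ≤ energy B := by
  unfold energy
  exact card_le_card (filter_subset_filter _
    (product_subset_product h (product_subset_product h (product_subset_product h h))))

/-- quadruples with four different entries -/
def Dst {G : Type} (s : G × G × G × G) : Prop :=
  s.1 ≠ s.2.1 ∧ s.1 ≠ s.2.2.1 ∧ s.1 ≠ s.2.2.2 ∧ s.2.1 ≠ s.2.2.1 ∧ s.2.1 ≠ s.2.2.2 ∧
    s.2.2.1 ≠ s.2.2.2

instance {G : Type} [DecidableEq G] (s : G × G × G × G) : Decidable (Dst s) := by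
  unfold Dst
  infer_instance

/-- quadruples of solutions with four different entries -/
def sol4 {G : Type} [AddCommGroup G] [DecidableEq G] (E : Finset G) : Finset (G × G × G × G) :=
  (E ×ˢ E ×ˢ E ×ˢ E).filter (fun s => s.1 + s.2.1 = s.2.2.1 + s.2.2.2 ∧ Dst s)

theorem sol4_card_le {G : Type} [AddCommGroup G] [DecidableEq G] (E : Finset G) :
    (sol4 E).card ≤ energy E := by
  unfold sol4 energy
  refine card_le_card fun s hs => ?_
  rw [mem_filter] at hs ⊢
  exact ⟨hs.1, hs.2.1⟩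

theorem energy_le_sol4 {G : Type} [AddCommGroup G] [DecidableEq G] (E : Finset G) :
    energy E ≤ (sol4 E).card + 4 * E.card ^ 2 := by
  classical
  let S := (E ×ˢ E ×ˢ E ×ˢ E).filter (fun s => s.1 + s.2.1 = s.2.2.1 + s.2.2.2)
  have hb : ∀ (P : G × G × G × G → Prop) [DecidablePred P] (g : G × G × G × G → G × G),
      (∀ s ∈ S, g s ∈ E ×ˢ E) →
      (∀ s ∈ S, ∀ t ∈ S, P s → P t → g s = g t → s = t) → (S.filter P).card ≤ E.card ^ 2 := by
    intro P _ g h1 h2
    rw [sq, ← card_product]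
    refine card_le_card_of_injOn g (fun s hs => h1 s (mem_filter.1 hs).1) ?_
    intro s hs t ht h
    exact h2 s (mem_filter.1 hs).1 t (mem_filter.1 ht).1 (mem_filter.1 hs).2
      (mem_filter.1 ht).2 h
  have hS : ∀ s ∈ S, s.1 ∈ E ∧ s.2.1 ∈ E ∧ s.2.2.1 ∈ E ∧ s.2.2.2 ∈ E ∧
      s.1 + s.2.1 = s.2.2.1 + s.2.2.2 := by
    intro s hs
    simp only [S, mem_filter, mem_product] at hs
    exact ⟨hs.1.1, hs.1.2.1, hs.1.2.2.1, hs.1.2.2.2, hs.2⟩
  have c1 := hb (fun s => s.1 = s.2.1) (fun s => (s.1, s.2.2.1))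
    (fun s hs => mem_product.2 ⟨(hS s hs).1, (hS s hs).2.2.1⟩) (by
      rintro ⟨a, b, c, d⟩ hs ⟨a', b', c', d'⟩ ht h1 h2 h3
      have e1 := (hS _ hs).2.2.2.2
      have e2 := (hS _ ht).2.2.2.2
      simp only at h1 h2 h3 e1 e2
      simp only [Prod.mk.injEq] at h3
      obtain ⟨rfl, rfl⟩ := h3
      subst h1
      subst h2
      rw [e1] at e2
      have := add_left_cancel e2
      rw [this])
  have c2 := hb (fun s => s.2.2.1 = s.2.2.2) (fun s => (s.1, s.2.2.1))
    (fun s hs => mem_product.2 ⟨(hS s hs).1, (hS s hs).2.2.1⟩) (by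
      rintro ⟨a, b, c, d⟩ hs ⟨a', b', c', d'⟩ ht h1 h2 h3
      have e1 := (hS _ hs).2.2.2.2
      have e2 := (hS _ ht).2.2.2.2
      simp only at h1 h2 h3 e1 e2
      simp only [Prod.mk.injEq] at h3
      obtain ⟨rfl, rfl⟩ := h3
      subst h1
      subst h2
      rw [← e2] at e1
      have := add_left_cancel e1
      rw [this])
  have c3 := hb (fun s => s.1 = s.2.2.1) (fun s => (s.1, s.2.1))
    (fun s hs => mem_product.2 ⟨(hS s hs).1, (hS s hs).2.1⟩) (by
      rintro ⟨a, b, c, d⟩ hs ⟨a', b', c', d'⟩ ht h1 h2 h3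
      have e1 := (hS _ hs).2.2.2.2
      have e2 := (hS _ ht).2.2.2.2
      simp only at h1 h2 h3 e1 e2
      simp only [Prod.mk.injEq] at h3
      obtain ⟨rfl, rfl⟩ := h3
      subst h1
      subst h2
      have h4 := add_left_cancel e1
      have h5 := add_left_cancel e2
      rw [← h4, ← h5])
  have c4 := hb (fun s => s.1 = s.2.2.2) (fun s => (s.1, s.2.1))
    (fun s hs => mem_product.2 ⟨(hS s hs).1, (hS s hs).2.1⟩) (by
      rintro ⟨a, b, c, d⟩ hs ⟨a', b', c', d'⟩ ht h1 h2 h3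
      have e1 := (hS _ hs).2.2.2.2
      have e2 := (hS _ ht).2.2.2.2
      simp only at h1 h2 h3 e1 e2
      simp only [Prod.mk.injEq] at h3
      obtain ⟨rfl, rfl⟩ := h3
      subst h1
      subst h2
      rw [add_comm] at e1 e2
      have h4 := add_right_cancel e1
      have h5 := add_right_cancel e2
      rw [← h4, ← h5])
  have hcov : S ⊆ sol4 E ∪ (S.filter (fun s => s.1 = s.2.1) ∪
      (S.filter (fun s => s.2.2.1 = s.2.2.2) ∪ (S.filter (fun s => s.1 = s.2.2.1) ∪
      S.filter (fun s => s.1 = s.2.2.2)))) := by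
    intro s hs
    by_cases h1 : s.1 = s.2.1
    · simp [hs, h1]
    by_cases h2 : s.2.2.1 = s.2.2.2
    · simp [hs, h2]
    by_cases h3 : s.1 = s.2.2.1
    · simp only [mem_union, mem_filter]
      tauto
    by_cases h4 : s.1 = s.2.2.2
    · simp only [mem_union, mem_filter]
      tauto
    have h5 : s.2.1 ≠ s.2.2.1 := by
      intro h
      have e := (hS s hs).2.2.2.2
      rw [h, add_comm] at e
      exact h4 (add_left_cancel e)
    have h6 : s.2.1 ≠ s.2.2.2 := by
      intro h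
      have e := (hS s hs).2.2.2.2
      rw [h] at e
      exact h3 (add_right_cancel e)
    refine mem_union_left _ ?_
    simp only [S, mem_filter] at hs
    simp only [sol4, mem_filter]
    exact ⟨hs.1, hs.2, h1, h3, h4, h5, h6, h2⟩
  have hc := card_le_card hcov
  have u1 := card_union_le (sol4 E) (S.filter (fun s => s.1 = s.2.1) ∪
      (S.filter (fun s => s.2.2.1 = s.2.2.2) ∪ (S.filter (fun s => s.1 = s.2.2.1) ∪
      S.filter (fun s => s.1 = s.2.2.2))))
  have u2 := card_union_le (S.filter (fun s => s.1 = s.2.1))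
      (S.filter (fun s => s.2.2.1 = s.2.2.2) ∪ (S.filter (fun s => s.1 = s.2.2.1) ∪
      S.filter (fun s => s.1 = s.2.2.2)))
  have u3 := card_union_le (S.filter (fun s => s.2.2.1 = s.2.2.2))
    (S.filter (fun s => s.1 = s.2.2.1) ∪ S.filter (fun s => s.1 = s.2.2.2))
  have u4 := card_union_le (S.filter (fun s => s.1 = s.2.2.1))
    (S.filter (fun s => s.1 = s.2.2.2))
  have hE : energy E = S.card := rfl
  rw [hE]
  omega

/-- average over the deleted element -/
theorem sol4_erase_sum {G : Type} [AddCommGroup G] [DecidableEq G] (E : Finset G)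
    (_h4 : 4 ≤ E.card) :
    ∑ x ∈ E, (sol4 (E.erase x)).card = (E.card - 4) * (sol4 E).card := by
  classical
  have h1 : ∀ x ∈ E, (sol4 (E.erase x)).card =
      ∑ s ∈ sol4 E, if (x ≠ s.1 ∧ x ≠ s.2.1 ∧ x ≠ s.2.2.1 ∧ x ≠ s.2.2.2) then 1 else 0 := by
    intro x _
    rw [← card_filter]
    congr 1
    ext s
    simp only [sol4, mem_filter, mem_product, mem_erase]
    constructor
    · rintro ⟨⟨⟨a1, a2⟩, ⟨b1, b2⟩, ⟨c1, c2⟩, ⟨d1, d2⟩⟩, e⟩
      exact ⟨⟨⟨a2, b2, c2, d2⟩, e⟩, a1.symm, b1.symm, c1.symm, d1.symm⟩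
    · rintro ⟨⟨⟨a2, b2, c2, d2⟩, e⟩, a1, b1, c1, d1⟩
      exact ⟨⟨⟨a1.symm, a2⟩, ⟨b1.symm, b2⟩, ⟨c1.symm, c2⟩, ⟨d1.symm, d2⟩⟩, e⟩
  rw [sum_congr rfl h1, sum_comm]
  have h2 : ∀ s ∈ sol4 E, (∑ x ∈ E,
      if (x ≠ s.1 ∧ x ≠ s.2.1 ∧ x ≠ s.2.2.1 ∧ x ≠ s.2.2.2) then 1 else 0) = E.card - 4 := by
    intro s hs
    rw [← card_filter]
    simp only [sol4, mem_filter, mem_product] at hs
    obtain ⟨⟨ha, hb, hc, hd⟩, _, n1, n2, n3, n4, n5, n6⟩ := hs
    have : E.filter (fun x => x ≠ s.1 ∧ x ≠ s.2.1 ∧ x ≠ s.2.2.1 ∧ x ≠ s.2.2.2) =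
        E \ {s.1, s.2.1, s.2.2.1, s.2.2.2} := by
      ext x
      simp only [mem_filter, mem_sdiff, mem_insert, mem_singleton, not_or]
    rw [this, card_sdiff_of_subset (by
      intro x hx
      simp only [mem_insert, mem_singleton] at hx
      rcases hx with rfl | rfl | rfl | rfl <;> assumption)]
    congr 1
    rw [card_insert_of_notMem (by simp [n1, n2, n3]), card_insert_of_notMem (by simp [n4, n5]),
      card_insert_of_notMem (by simp [n6]), card_singleton]
  rw [sum_congr rfl h2, sum_const, smul_eq_mul, mul_comm]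

theorem exists_erase {G : Type} [AddCommGroup G] [DecidableEq G] (E : Finset G)
    (h : 4 < E.card) :
    ∃ x ∈ E, (sol4 (E.erase x)).card * E.card ^ 4 ≤ (E.card - 1) ^ 4 * (sol4 E).card := by
  by_contra hcon
  push Not at hcon
  have h1 := sol4_erase_sum E h.le
  have hne : E.Nonempty := card_pos.1 (by omega)
  have h2 : ∑ x ∈ E, ((E.card - 1) ^ 4 * (sol4 E).card) <
      ∑ x ∈ E, ((sol4 (E.erase x)).card * E.card ^ 4) := sum_lt_sum_of_nonempty hne hcon
  rw [sum_const, smul_eq_mul, ← sum_mul, h1] at h2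
  have h3 : (E.card - 4) * E.card ^ 4 ≤ E.card * (E.card - 1) ^ 4 := by
    obtain ⟨m, hm⟩ : ∃ m, E.card = m + 5 := ⟨E.card - 5, by omega⟩
    rw [hm, show m + 5 - 4 = m + 1 by omega, show m + 5 - 1 = m + 4 by omega]
    zify
    nlinarith [sq_nonneg (m : ℤ), sq_nonneg ((m : ℤ) ^ 2), mul_nonneg (sq_nonneg (m : ℤ)) (Int.natCast_nonneg m)]
  have h4 := Nat.mul_le_mul_right (sol4 E).card h3
  nlinarith

/-- dense subsets with few solutions -/
theorem exists_subset_sol4 {G : Type} [AddCommGroup G] [DecidableEq G] (E : Finset G) (k : ℕ)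
    (hk : 4 ≤ k) (hkE : k ≤ E.card) :
    ∃ S ⊆ E, S.card = k ∧ (sol4 S).card * E.card ^ 4 ≤ k ^ 4 * (sol4 E).card := by
  induction hn : E.card - k generalizing E with
  | zero =>
    refine ⟨E, Subset.rfl, by omega, ?_⟩
    rw [show E.card = k by omega, mul_comm]
  | succ n ih =>
    obtain ⟨x, hx, h1⟩ := exists_erase E (by omega)
    have hc : (E.erase x).card = E.card - 1 := card_erase_of_mem hx
    obtain ⟨S, hS, hSk, h2⟩ := ih (E.erase x) (by omega) (by omega)
    refine ⟨S, hS.trans (erase_subset _ _), hSk, ?_⟩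
    rw [hc] at h2
    have hpos : 0 < (E.card - 1) ^ 4 := by
      have : 0 < E.card - 1 := by omega
      positivity
    refine Nat.le_of_mul_le_mul_left ?_ hpos
    calc (E.card - 1) ^ 4 * ((sol4 S).card * E.card ^ 4)
        = ((sol4 S).card * (E.card - 1) ^ 4) * E.card ^ 4 := by ring
      _ ≤ (k ^ 4 * (sol4 (E.erase x)).card) * E.card ^ 4 := Nat.mul_le_mul_right _ h2
      _ = k ^ 4 * ((sol4 (E.erase x)).card * E.card ^ 4) := by ring
      _ ≤ k ^ 4 * ((E.card - 1) ^ 4 * (sol4 E).card) := Nat.mul_le_mul_left _ h1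
      _ = _ := by ring

/-- For every `k` between `4` and `|E|` the set `E` has a subset of size `k` with energy at most
`(k/|E|)^4 energy(E) + 4k^2`. -/
theorem exists_subset_energy {G : Type} [AddCommGroup G] [DecidableEq G] (E : Finset G) (k : ℕ)
    (hk : 4 ≤ k) (hkE : k ≤ E.card) :
    ∃ S ⊆ E, S.card = k ∧
      energy S * E.card ^ 4 ≤ k ^ 4 * energy E + 4 * k ^ 2 * E.card ^ 4 := by
  obtain ⟨S, h1, h2, h3⟩ := exists_subset_sol4 E k hk hkE
  refine ⟨S, h1, h2, ?_⟩
  have h4 := energy_le_sol4 S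
  have h5 := sol4_card_le E
  rw [h2] at h4
  calc energy S * E.card ^ 4 ≤ ((sol4 S).card + 4 * k ^ 2) * E.card ^ 4 :=
        Nat.mul_le_mul_right _ h4
    _ = (sol4 S).card * E.card ^ 4 + 4 * k ^ 2 * E.card ^ 4 := by ring
    _ ≤ k ^ 4 * (sol4 E).card + 4 * k ^ 2 * E.card ^ 4 := Nat.add_le_add_right h3 _
    _ ≤ _ := Nat.add_le_add_right (Nat.mul_le_mul_left _ h5) _

end Pool.Agent.H10.M546
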