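import Mathlib

set_option autoImplicit false

/-!
Distance sets of `(4,s)`-Salem sets: the definitions.
-/

open Finset

namespace Pool.Agent.H10.M546

/-- The fourth additive energy `Λ₄(E)`: the number of `(x1, x2, x3, x4) ∈ E^4` with
`x1 + x2 = x3 + x4`. -/
def energy {G : Type} [AddCommGroup G] [DecidableEq G] (E : Finset G) : ℕ :=
  ((E ×ˢ E ×ˢ E ×ˢ E).filter (fun s => s.1 + s.2.1 = s.2.2.1 + s.2.2.2)).card

/-- The distance set `Δ(E) = {‖x - y‖ : x, y ∈ E}`, where `‖x‖ = x_1^2 + ⋯ + x_d^2`. -/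
def distSet {F : Type} [Field F] [DecidableEq F] {d : ℕ} (E : Finset (Fin d → F)) : Finset F :=
  (E ×ˢ E).image (fun s => ∑ i, (s.1 i - s.2 i) ^ 2)

/-- The property of `α` in the definition of `α(d,4,s)`: for every `C0 > 0` there are `C, c > 0`
such that, for every finite field `F` of odd characteristic (with `q` elements) and every
`E ⊂ F^d` with `Λ₄(E) ≤ C0 (q^(-d) |E|^4 + |E|^(4-4s))` and `|E| ≥ C q^α`, one has
`|Δ(E)| ≥ c q`. -/
def Good (d : ℕ) (s α : ℝ) : Prop :=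
  ∀ C0 : ℝ, 0 < C0 → ∃ C c : ℝ, 0 < C ∧ 0 < c ∧
    ∀ (F : Type) [Field F] [Fintype F] [DecidableEq F], (2 : F) ≠ 0 →
      ∀ E : Finset (Fin d → F),
        (energy E : ℝ) ≤ C0 * ((Fintype.card F : ℝ) ^ (-(d : ℝ)) * (E.card : ℝ) ^ 4 +
          (E.card : ℝ) ^ (4 - 4 * s)) →
        C * (Fintype.card F : ℝ) ^ α ≤ (E.card : ℝ) →
        c * (Fintype.card F : ℝ) ≤ ((distSet E).card : ℝ)

/-- `α(d,4,s)`: the infimum of the `α` with the property `Good d s α`. -/
noncomputable def alpha (d : ℕ) (s : ℝ) : ℝ := sInf {α : ℝ | Good d s α}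

/-- The conjectured value of `α(d,4,s)`. -/
noncomputable def conjectured (d : ℕ) (s : ℝ) : ℝ :=
  if d = 2 then 1 else
  if Even d then (if s ≤ (d + 2) / (4 * d) then (d : ℝ) / 2 else (d + 2) / (8 * s)) else
  (d + 1) / (8 * s)

end Pool.Agent.H10.M546
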