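import Pool.Agent.H10.M546.Three

set_option autoImplicit false
set_option linter.style.haveILetI false

/-!
The examples in all dimensions `d ≥ 3`.
-/

open Finset

namespace Pool.Agent.H10.M546

open Pool.H654R5 (Sph)

/-- add two dimensions -/
def up {F : Type} [Field F] [Fintype F] [DecidableEq F] {d : ℕ} (i : F) (E : Finset (Fin d → F)) :
    Finset (Fin (d + 2) → F) :=
  (E ×ˢ (univ : Finset F)).image (fun x => Fin.cons x.2 (Fin.cons (i * x.2) x.1))

section up

variable {F : Type} [Field F] [Fintype F] [DecidableEq F] {d : ℕ} (i : F) (E : Finset (Fin d → F))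

theorem up_card : (up i E).card = E.card * Fintype.card F := by
  unfold up
  rw [card_image_of_injOn, card_product, card_univ]
  rintro ⟨a, x⟩ _ ⟨b, y⟩ _ h
  simp only [Fin.cons_inj] at h
  exact Prod.ext h.2.2 h.1

theorem up_dist (hi : i ^ 2 = -1) : (distSet (up i E)).card ≤ (distSet E).card := by
  refine card_le_card fun z hz => ?_
  simp only [distSet, up, mem_image, mem_product, mem_univ, and_true] at hz
  obtain ⟨⟨u, v⟩, ⟨⟨⟨a, x⟩, ha, rfl⟩, ⟨⟨b, y⟩, hb, rfl⟩⟩, rfl⟩ := hz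
  simp only [distSet, mem_image, mem_product]
  refine ⟨(a, b), ⟨ha, hb⟩, ?_⟩
  rw [Fin.sum_univ_succ, Fin.sum_univ_succ]
  simp only [Fin.cons_zero, Fin.cons_succ]
  linear_combination -(x - y) ^ 2 * hi

theorem up_energy : energy (up i E) ≤ energy E * Fintype.card F ^ 3 := by
  unfold energy
  have h : Fintype.card F ^ 3 = ((univ : Finset F) ×ˢ (univ : Finset F) ×ˢ (univ : Finset F)).card := by
    rw [card_product, card_product, card_univ]
    ring
  rw [h, ← card_product]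
  refine card_le_card_of_injOn (fun s => ((fun j => s.1 j.succ.succ, fun j => s.2.1 j.succ.succ,
    fun j => s.2.2.1 j.succ.succ, fun j => s.2.2.2 j.succ.succ), (s.1 0, s.2.1 0, s.2.2.1 0)))
    ?_ ?_
  · rintro ⟨s1, s2, s3, s4⟩ hs
    simp only [up, mem_coe, mem_filter, mem_product, mem_image, mem_univ, and_true] at hs
    obtain ⟨⟨⟨⟨a, x⟩, ha, rfl⟩, ⟨⟨b, y⟩, hb, rfl⟩, ⟨⟨c, z⟩, hc, rfl⟩, ⟨⟨e, w⟩, he, rfl⟩⟩, h⟩ := hs
    simp only [mem_coe, mem_product, mem_filter, mem_univ, and_true, Fin.cons_succ]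
    refine ⟨⟨ha, hb, hc, he⟩, ?_⟩
    funext j
    have := congrFun h j.succ.succ
    simpa [Fin.cons_succ] using this
  · rintro ⟨s1, s2, s3, s4⟩ hs ⟨t1, t2, t3, t4⟩ ht hst
    simp only [up, mem_coe, mem_filter, mem_product, mem_image, mem_univ, and_true] at hs ht
    obtain ⟨⟨⟨⟨a, x⟩, ha, rfl⟩, ⟨⟨b, y⟩, hb, rfl⟩, ⟨⟨c, z⟩, hc, rfl⟩, ⟨⟨e, w⟩, he, rfl⟩⟩, h⟩ := hs
    obtain ⟨⟨⟨⟨a', x'⟩, ha', rfl⟩, ⟨⟨b', y'⟩, hb', rfl⟩, ⟨⟨c', z'⟩, hc', rfl⟩,
      ⟨⟨e', w'⟩, he', rfl⟩⟩, h'⟩ := ht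
    simp only [Fin.cons_zero, Fin.cons_succ, Prod.mk.injEq] at hst
    obtain ⟨⟨h1, h2, h3, h4⟩, h5, h6, h7⟩ := hst
    have k1 : a = a' := h1
    have k2 : b = b' := h2
    have k3 : c = c' := h3
    have k4 : e = e' := h4
    subst k1 k2 k3 k4 h5 h6 h7
    have g1 := congrFun h 0
    have g2 := congrFun h' 0
    simp only [Pi.add_apply, Fin.cons_zero] at g1 g2
    have : w = w' := add_left_cancel (g1.symm.trans g2)
    subst this
    rfl

end up

/-- the family of examples, in dimension `d`, with energy exponent `b` -/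
def Fam (d b : ℕ) : Prop :=
  ∃ C : ℕ, 0 < C ∧ ∀ h : ℕ, Odd h → ∀ p : ℕ, p.Prime → p % 4 = 1 →
    ∃ (F : Type) (_ : Field F) (_ : Fintype F) (_ : DecidableEq F) (i : F)
      (E : Finset (Fin d → F)),
      (2 : F) ≠ 0 ∧ i ^ 2 = -1 ∧ Fintype.card F = p ^ (2 * h) ∧
      p ^ (d * h) ≤ C * p * E.card ∧ energy E ≤ C * p ^ (b * h) ∧
      (distSet E).card * p ≤ 2 * p ^ (2 * h)

theorem fam_up {d b : ℕ} (h : Fam d b) : Fam (d + 2) (b + 6) := by
  obtain ⟨C, hC, H⟩ := h
  refine ⟨C, hC, fun h hh p hp hp4 => ?_⟩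
  obtain ⟨F, iF, iFt, iFd, i, E, h2, hi, hc, h3, h4, h5⟩ := H h hh p hp hp4
  refine ⟨F, iF, iFt, iFd, i, up i E, h2, hi, hc, ?_, ?_, ?_⟩
  · rw [up_card, hc]
    calc p ^ ((d + 2) * h) = p ^ (d * h) * p ^ (2 * h) := by rw [← pow_add]; ring_nf
      _ ≤ (C * p * E.card) * p ^ (2 * h) := Nat.mul_le_mul_right _ h3
      _ = _ := by ring
  · refine (up_energy i E).trans ?_
    rw [hc]
    calc energy E * (p ^ (2 * h)) ^ 3 ≤ (C * p ^ (b * h)) * (p ^ (2 * h)) ^ 3 :=
          Nat.mul_le_mul_right _ h4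
      _ = C * p ^ ((b + 6) * h) := by
        rw [mul_assoc, ← pow_mul, ← pow_add]
        congr 2
        ring
  · exact (Nat.mul_le_mul_right _ (up_dist i E hi)).trans h5

theorem neg_one_sq {K : Type} [Field K] [Fintype K] (p h : ℕ) (hp4 : p % 4 = 1)
    (hK : Fintype.card K = p ^ h) : ∃ i : K, i ^ 2 = -1 := by
  have h1 : IsSquare (-1 : K) := by
    rw [FiniteField.isSquare_neg_one_iff, hK, Nat.pow_mod, hp4]
    simp
  obtain ⟨i, hi⟩ := h1
  exact ⟨i, by rw [sq, hi]⟩

theorem two_ne {K : Type} [Field K] [Fintype K] (p : ℕ) [Fact p.Prime] [CharP K p]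
    (hp4 : p % 4 = 1) : (2 : K) ≠ 0 := by
  intro h2
  have h3 : ((2 : ℕ) : K) = 0 := by exact_mod_cast h2
  rw [CharP.cast_eq_zero_iff K p] at h3
  have := Nat.le_of_dvd (by norm_num) h3
  have hp := (Fact.out : p.Prime).two_le
  omega

theorem fam_four : Fam 4 8 := by
  refine ⟨6, by norm_num, fun h hh p hp hp4 => ?_⟩
  haveI : Fact p.Prime := ⟨hp⟩
  have h0 : 2 * h ≠ 0 := by have := hh.pos; omega
  let F := GaloisField p (2 * h)
  letI : Fintype F := Fintype.ofFinite F
  letI : DecidableEq F := Classical.decEq F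
  have hc : Fintype.card F = p ^ (2 * h) := by
    rw [← Nat.card_eq_fintype_card]
    exact GaloisField.card p (2 * h) h0
  obtain ⟨i, hi⟩ := neg_one_sq (K := F) p (2 * h) hp4 hc
  have h2 : (2 : F) ≠ 0 := two_ne (K := F) p hp4
  have hp1 : 1 < p := hp.one_lt
  have hdvd : p + 1 ∣ p ^ (2 * h) - 1 := by
    have d1 : p ^ 2 - 1 ∣ (p ^ 2) ^ h - 1 := by
      simpa using Nat.sub_dvd_pow_sub_pow (p ^ 2) 1 h
    rw [← pow_mul] at d1
    refine Dvd.dvd.trans ?_ d1
    refine ⟨p - 1, ?_⟩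
    obtain ⟨r, rfl⟩ : ∃ r, p = r + 1 := ⟨p - 1, by omega⟩
    simp only [Nat.add_sub_cancel]
    have : (r + 1) ^ 2 = (r + 1 + 1) * r + 1 := by ring
    omega
  obtain ⟨m, hm⟩ := hdvd
  have hq : p < p ^ (2 * h) := by
    calc p = p ^ 1 := (pow_one p).symm
      _ < p ^ (2 * h) := Nat.pow_lt_pow_right hp1 (by have := hh.pos; omega)
  have hmm : m * (p + 1) = Fintype.card F - 1 := by rw [hc, hm, mul_comm]
  have hm0 : 0 < m := by
    rcases Nat.eq_zero_or_pos m with h | h
    · rw [h, mul_zero] at hm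
      omega
    · exact h
  refine ⟨F, inferInstance, inferInstance, inferInstance, i, Four.E4 p i m, h2, hi, hc, ?_, ?_, ?_⟩
  · rw [Four.E4_card p i hi h2 m hm0]
    have h5 := Rt_card_ge F m (p + 1) (by omega) hmm
    rw [hc] at hmm ⊢
    rw [show 4 * h = 2 * h + 2 * h by ring, pow_add]
    generalize p ^ (2 * h) = q at *
    have e1 : q ≤ 2 * (m * (p + 1)) := by omega
    have e2 : 2 * (m * (p + 1)) ≤ 4 * (m * p) := by nlinarith
    calc q * q ≤ (4 * (m * p)) * q := Nat.mul_le_mul_right _ (e1.trans e2)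
      _ ≤ (6 * ((Rt F m).card * p)) * q := by
        refine Nat.mul_le_mul_right _ (Nat.mul_le_mul (by norm_num) (Nat.mul_le_mul_right _ h5))
      _ = _ := by ring
  · refine (Four.E4_energy p i hi h2 m hmm hm0).trans ?_
    rw [hc, ← pow_mul]
    refine le_of_eq ?_
    congr 2
    ring
  · refine (Nat.mul_le_mul_right _ (Four.E4_dist p i hi m hmm hm0)).trans ?_
    rw [hc] at hmm
    generalize p ^ (2 * h) = q at *
    have : (m + 1) * p + m = m * (p + 1) + p := by ring
    omega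

theorem fam_three : Fam 3 6 := by
  refine ⟨88, by norm_num, fun h hh p hp hp4 => ?_⟩
  haveI : Fact p.Prime := ⟨hp⟩
  have h0 : h ≠ 0 := hh.pos.ne'
  let K := GaloisField p h
  letI : Fintype K := Fintype.ofFinite K
  letI : DecidableEq K := Classical.decEq K
  have hcK : Fintype.card K = p ^ h := by
    rw [← Nat.card_eq_fintype_card]
    exact GaloisField.card p h h0
  let F := FiniteField.Extension K p 2
  letI : Fintype F := Fintype.ofFinite F
  letI : DecidableEq F := Classical.decEq F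
  have hcF : Fintype.card F = Fintype.card K ^ 2 := by
    rw [← Nat.card_eq_fintype_card, ← Nat.card_eq_fintype_card]
    exact FiniteField.natCard_extension K p 2
  have h2K : (2 : K) ≠ 0 := two_ne (K := K) p hp4
  have h2 : (2 : F) ≠ 0 := by
    intro h
    apply h2K
    apply (algebraMap K F).injective
    rw [map_ofNat, map_zero]
    exact h
  obtain ⟨i, hi⟩ := neg_one_sq (K := K) p h hp4 hcK
  have hp1 : 1 < p := hp.one_lt
  have hp5 : 5 ≤ p := by
    by_contra hlt
    have : p = 1 := by omega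
    omega
  have hk5 : 5 ≤ Fintype.card K := by
    rw [hcK]
    calc 5 ≤ p := hp5
      _ = p ^ 1 := (pow_one p).symm
      _ ≤ p ^ h := Nat.pow_le_pow_right hp.pos (by omega)
  obtain ⟨hS1, hS2⟩ := Pool.H654R5.task_Sphere 3 le_rfl K h2K hk5 i hi
  rw [show 3 - 1 = 2 by norm_num] at hS1 hS2
  obtain ⟨m, hm⟩ : p + 1 ∣ p ^ h + 1 := by
    simpa using Odd.nat_add_dvd_pow_add_pow p 1 hh
  have hmn : m * (p + 1) = Fintype.card K + 1 := by rw [hcK, hm, mul_comm]
  have hodd : Odd m := by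
    rw [← Nat.not_even_iff_odd]
    rintro ⟨r, hr⟩
    have h4 : (p ^ h + 1) % 4 = 0 := by
      rw [hm, hr]
      have : (p + 1) * (r + r) = 4 * (((p + 1) / 2) * r) := by
        have : p + 1 = 2 * ((p + 1) / 2) := by omega
        nlinarith
      rw [this]
      exact Nat.mul_mod_right _ _
    have h5 : p ^ h % 4 = 1 := by
      rw [Nat.pow_mod, hp4]
      simp
    omega
  have hm0 : 0 < m := hodd.pos
  refine ⟨F, inferInstance, inferInstance, inferInstance, algebraMap K F i, Three.E3 K F m, h2,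
    ?_, ?_, ?_, ?_, ?_⟩
  · rw [← map_pow, hi, map_neg, map_one]
  · rw [hcF, hcK, ← pow_mul, mul_comm h 2]
  · rw [Three.E3_card hodd]
    have h5 := Rt_card_ge F m ((p + 1) * (Fintype.card K - 1))
      (Nat.mul_pos (by omega) (by omega)) (by
        rw [hcF, ← mul_assoc, hmn]
        obtain ⟨r, hr⟩ : ∃ r, Fintype.card K = r + 1 := ⟨Fintype.card K - 1, by omega⟩
        rw [hr, Nat.add_sub_cancel]
        have : (r + 1) ^ 2 = (r + 1 + 1) * r + 1 := by ring
        omega)
    rw [mul_comm 3 h, pow_mul, ← hcK]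
    generalize Fintype.card K = k at *
    generalize (Sph 3 K).card = S at *
    have e1 : k ≤ m * (p + 1) := by omega
    have e2 : m * (p + 1) ≤ 2 * (m * p) := by nlinarith
    calc k ^ 3 = k * k ^ 2 := by ring
      _ ≤ (2 * (m * p)) * (4 * S) := Nat.mul_le_mul (e1.trans e2) hS2
      _ ≤ (2 * ((Rt F m).card * p)) * (4 * S) := Nat.mul_le_mul_right _
          (Nat.mul_le_mul_left 2 (Nat.mul_le_mul_right _ h5))
      _ = 8 * (p * ((Rt F m).card * S)) := by ring
      _ ≤ 88 * (p * ((Rt F m).card * S)) := Nat.mul_le_mul_right _ (by norm_num)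
      _ = _ := by ring
  · refine (Three.E3_energy h2 hmn (by omega) hodd hS1).trans ?_
    rw [hcK, ← pow_mul]
    refine le_of_eq ?_
    congr 2
    ring
  · refine (Nat.mul_le_mul_right _ (Three.E3_dist hmn hm0)).trans ?_
    rw [mul_comm 2 h, pow_mul, ← hcK]
    have e1 : m * p ≤ Fintype.card K + 1 := by
      rw [← hmn]
      exact Nat.mul_le_mul_left _ (by omega)
    have e2 : m * Fintype.card K * p = (m * p) * Fintype.card K := by ring
    rw [e2]
    calc (m * p) * Fintype.card K ≤ (Fintype.card K + 1) * Fintype.card K :=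
          Nat.mul_le_mul_right _ e1
      _ ≤ 2 * Fintype.card K ^ 2 := by nlinarith

theorem fam_odd (j : ℕ) : Fam (2 * j + 3) (6 * j + 6) := by
  induction j with
  | zero => exact fam_three
  | succ j ih => exact fam_up ih

theorem fam_even (j : ℕ) : Fam (2 * j + 4) (6 * j + 8) := by
  induction j with
  | zero => exact fam_four
  | succ j ih => exact fam_up ih

end Pool.Agent.H10.M546
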