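import Pool.Agent.H10.M546.Upper

set_option autoImplicit false

/-!
The definition of `α(d,4,s)` and the bounds for it.
-/

open Finset

namespace Pool.Agent.H10.M546

theorem good_lower_odd (d : ℕ) (hd : 3 ≤ d) (ho : Odd d) (s : ℝ) (hs : 1 / 4 ≤ s)
    (hs2 : s ≤ 1 / 2) (α : ℝ) (h : Good d s α) :
    min ((d : ℝ) / 2) ((d + 3) / (8 * s)) ≤ α := by
  obtain ⟨k, rfl⟩ := ho
  obtain ⟨j, rfl⟩ : ∃ j, k = j + 1 := ⟨k - 1, by omega⟩
  have h1 := lower (2 * j + 3) (6 * j + 6) (by omega) (by omega) (fam_odd j) s hs hs2 α h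
  have e : (4 * ((2 * j + 3 : ℕ) : ℝ) - ((6 * j + 6 : ℕ) : ℝ)) =
      (((2 * (j + 1) + 1 : ℕ) : ℝ) + 3) := by
    push_cast
    ring
  rw [e] at h1
  exact h1

theorem good_lower_even (d : ℕ) (hd : 4 ≤ d) (he : Even d) (s : ℝ) (hs : 1 / 4 ≤ s)
    (hs2 : s ≤ 1 / 2) (α : ℝ) (h : Good d s α) :
    min ((d : ℝ) / 2) ((d + 4) / (8 * s)) ≤ α := by
  obtain ⟨k, hk⟩ := he
  obtain ⟨j, rfl⟩ : ∃ j, k = j + 2 := ⟨k - 2, by omega⟩
  obtain rfl : d = 2 * j + 4 := by omega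
  have h1 := lower (2 * j + 4) (6 * j + 8) (by omega) (by omega) (fam_even j) s hs hs2 α h
  have e : (4 * ((2 * j + 4 : ℕ) : ℝ) - ((6 * j + 8 : ℕ) : ℝ)) =
      (((2 * j + 4 : ℕ) : ℝ) + 4) := by
    push_cast
    ring
  rw [e] at h1
  exact h1

theorem alpha_le (d : ℕ) (hd : 3 ≤ d) (s : ℝ) (hs : 1 / 4 ≤ s) (hs2 : s ≤ 1 / 2) :
    alpha d s ≤ (d : ℝ) / (4 * s) := by
  apply csInf_le _ (upper d (by omega) s (by linarith))
  rcases Nat.even_or_odd d with h | h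
  · refine ⟨min ((d : ℝ) / 2) ((d + 4) / (8 * s)), fun α hα => ?_⟩
    have hd4 : 4 ≤ d := by
      rcases h with ⟨k, hk⟩
      omega
    exact good_lower_even d hd4 h s hs hs2 α hα
  · exact ⟨min ((d : ℝ) / 2) ((d + 3) / (8 * s)), fun α hα =>
      good_lower_odd d hd h s hs hs2 α hα⟩

theorem lower_odd (d : ℕ) (hd : 3 ≤ d) (ho : Odd d) (s : ℝ) (hs : 1 / 4 ≤ s) (hs2 : s ≤ 1 / 2) :
    min ((d : ℝ) / 2) ((d + 3) / (8 * s)) ≤ alpha d s :=
  le_csInf ⟨_, upper d (by omega) s (by linarith)⟩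
    (fun α hα => good_lower_odd d hd ho s hs hs2 α hα)

theorem lower_even (d : ℕ) (hd : 4 ≤ d) (he : Even d) (s : ℝ) (hs : 1 / 4 ≤ s)
    (hs2 : s ≤ 1 / 2) :
    min ((d : ℝ) / 2) ((d + 4) / (8 * s)) ≤ alpha d s :=
  le_csInf ⟨_, upper d (by omega) s (by linarith)⟩
    (fun α hα => good_lower_even d hd he s hs hs2 α hα)

theorem refute_odd (d : ℕ) (hd : 3 ≤ d) (ho : Odd d) (s : ℝ) (hs : 1 / 4 ≤ s) (hs2 : s ≤ 1 / 2)
    (h : conjectured d s < (d : ℝ) / 2) : conjectured d s < alpha d s := by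
  refine lt_of_lt_of_le ?_ (lower_odd d hd ho s hs hs2)
  refine lt_min h ?_
  have hc : conjectured d s = (d + 1) / (8 * s) := by
    unfold conjectured
    rw [if_neg (by omega), if_neg (by rw [Nat.not_even_iff_odd]; exact ho)]
  rw [hc]
  exact div_lt_div_of_pos_right (by linarith) (by linarith)

theorem refute_even (d : ℕ) (hd : 4 ≤ d) (he : Even d) (s : ℝ) (hs : 1 / 4 ≤ s)
    (hs2 : s ≤ 1 / 2) (h : conjectured d s < (d : ℝ) / 2) : conjectured d s < alpha d s := by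
  refine lt_of_lt_of_le ?_ (lower_even d hd he s hs hs2)
  refine lt_min h ?_
  by_cases h1 : s ≤ (d + 2) / (4 * d)
  · exfalso
    unfold conjectured at h
    rw [if_neg (by omega), if_pos he, if_pos h1] at h
    exact lt_irrefl _ h
  · have hc : conjectured d s = (d + 2) / (8 * s) := by
      unfold conjectured
      rw [if_neg (by omega), if_pos he, if_neg h1]
    rw [hc]
    exact div_lt_div_of_pos_right (by linarith) (by linarith)

end Pool.Agent.H10.M546
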