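import Pool.Agent.H10.M546.Comb

set_option autoImplicit false

/-!
The four dimensional example: the set of the vectors `v ⊗ φ(v)`, `v ∈ F^2`, where `φ` is the
Frobenius map `x ↦ x^p`.
-/

open Finset

namespace Pool.Agent.H10.M546

theorem card_le_natDegree {F : Type} [Field F] [DecidableEq F] (P : Polynomial F) (hP : P ≠ 0)
    (A : Finset F) (hA : ∀ x ∈ A, P.eval x = 0) : A.card ≤ P.natDegree := by
  have h1 : A ⊆ P.roots.toFinset := by
    intro x hx
    rw [Multiset.mem_toFinset, Polynomial.mem_roots hP]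
    exact hA x hx
  exact (card_le_card h1).trans ((Multiset.toFinset_card_le _).trans (Polynomial.card_roots' P))

/-- the `m`-th roots of unity -/
def Rt (F : Type) [Field F] [Fintype F] [DecidableEq F] (m : ℕ) : Finset F :=
  univ.filter (fun x => x ^ m = 1)

theorem Rt_card_le (F : Type) [Field F] [Fintype F] [DecidableEq F] (m : ℕ) (hm : 0 < m) :
    (Rt F m).card ≤ m := by
  have h := card_le_natDegree (Polynomial.X ^ m - Polynomial.C (1 : F))
    (Polynomial.X_pow_sub_C_ne_zero hm 1) (Rt F m) (by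
      intro x hx
      simp only [Rt, mem_filter, mem_univ, true_and] at hx
      simp [hx])
  rwa [Polynomial.natDegree_X_pow_sub_C] at h

theorem Rt_card_ge (F : Type) [Field F] [Fintype F] [DecidableEq F] (m n : ℕ) (hn : 0 < n)
    (h : m * n = Fintype.card F - 1) : m ≤ (Rt F m).card := by
  have h1 : ((univ : Finset F).erase 0).card ≤ n * (((univ : Finset F).erase 0).image
      (fun x => x ^ n)).card := by
    refine card_le_mul_card_image _ _ fun b hb => ?_
    have h2 := card_le_natDegree (Polynomial.X ^ n - Polynomial.C b)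
      (Polynomial.X_pow_sub_C_ne_zero hn b)
      (((univ : Finset F).erase 0).filter (fun x => x ^ n = b)) (by
        intro x hx
        rw [mem_filter] at hx
        simp [hx.2])
    rwa [Polynomial.natDegree_X_pow_sub_C] at h2
  have h2 : ((univ : Finset F).erase 0).image (fun x => x ^ n) ⊆ Rt F m := by
    intro x hx
    rw [mem_image] at hx
    obtain ⟨y, hy, rfl⟩ := hx
    simp only [Rt, mem_filter, mem_univ, true_and]
    rw [← pow_mul, mul_comm, h]
    exact FiniteField.pow_card_sub_one_eq_one y (ne_of_mem_erase hy)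
  have h3 := card_le_card h2
  rw [card_erase_of_mem (mem_univ _), card_univ, ← h] at h1
  have h4 : m * n ≤ (Rt F m).card * n := h1.trans (by rw [mul_comm]; exact Nat.mul_le_mul_right _ h3)
  exact Nat.le_of_mul_le_mul_right h4 hn

namespace Four

variable {F : Type} [Field F] [Fintype F] [DecidableEq F]

/-- the four coordinates of the sum -/
def g (p : ℕ) (t : (F × F) × (F × F)) : F × F × F × F :=
  (t.1.1 + t.2.1, t.1.1 * t.1.2 + t.2.1 * t.2.2, t.1.1 * t.1.2 ^ p + t.2.1 * t.2.2 ^ p,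
    t.1.1 * t.1.2 ^ (p + 1) + t.2.1 * t.2.2 ^ (p + 1))

/-- the polynomial of which the parameter is a root -/
noncomputable def R (p : ℕ) (a b c d : F) : Polynomial F :=
  Polynomial.C (a * b ^ p - c * a ^ p) * Polynomial.X ^ (p ^ 2 + 1) +
    Polynomial.C (d * a ^ p - b ^ (p + 1)) * Polynomial.X ^ (p ^ 2) +
    Polynomial.C (c ^ (p + 1) - a * d ^ p) * Polynomial.X +
    Polynomial.C (b * d ^ p - d * c ^ p)

theorem R_natDegree (p : ℕ) (hp : 2 ≤ p) (a b c d : F) : (R p a b c d).natDegree ≤ p ^ 2 + 1 := by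
  unfold R
  have h : 1 ≤ p ^ 2 + 1 := by omega
  have h' : p ^ 2 ≤ p ^ 2 + 1 := by omega
  refine Polynomial.natDegree_add_le_of_degree_le (Polynomial.natDegree_add_le_of_degree_le
    (Polynomial.natDegree_add_le_of_degree_le ?_ ?_) ?_) ?_
  · exact Polynomial.natDegree_C_mul_X_pow_le _ _
  · exact (Polynomial.natDegree_C_mul_X_pow_le _ _).trans h'
  · exact (Polynomial.natDegree_C_mul_le _ _).trans (Polynomial.natDegree_X_le.trans h)
  · rw [Polynomial.natDegree_C]; omega

theorem R_ne (p : ℕ) (hp : 2 ≤ p) (a b c d : F) (hdet : a * d ≠ b * c) : R p a b c d ≠ 0 := by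
  intro h
  have hp2 : 1 < p ^ 2 := by nlinarith
  have e1 : (R p a b c d).coeff (p ^ 2 + 1) = a * b ^ p - c * a ^ p := by
    unfold R
    simp only [Polynomial.coeff_add, Polynomial.coeff_C_mul, Polynomial.coeff_X_pow,
      Polynomial.coeff_X, Polynomial.coeff_C]
    rw [if_pos trivial, if_neg (by omega), if_neg (by omega), if_neg (by omega)]
    ring
  have e2 : (R p a b c d).coeff (p ^ 2) = d * a ^ p - b ^ (p + 1) := by
    unfold R
    simp only [Polynomial.coeff_add, Polynomial.coeff_C_mul, Polynomial.coeff_X_pow,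
      Polynomial.coeff_X, Polynomial.coeff_C]
    rw [if_neg (by omega), if_pos trivial, if_neg (by omega), if_neg (by omega)]
    ring
  have e3 : (R p a b c d).coeff 1 = c ^ (p + 1) - a * d ^ p := by
    unfold R
    simp only [Polynomial.coeff_add, Polynomial.coeff_C_mul, Polynomial.coeff_X_pow,
      Polynomial.coeff_X, Polynomial.coeff_C]
    rw [if_neg (by omega), if_neg (by omega), if_pos trivial, if_neg (by omega)]
    ring
  have e4 : (R p a b c d).coeff 0 = b * d ^ p - d * c ^ p := by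
    unfold R
    simp only [Polynomial.coeff_add, Polynomial.coeff_C_mul, Polynomial.coeff_X_pow,
      Polynomial.coeff_X, Polynomial.coeff_C]
    rw [if_neg (by omega), if_neg (by omega), if_neg (by omega), if_pos trivial]
    ring
  rw [h, Polynomial.coeff_zero] at e1 e2 e3 e4
  have hp0 : p ≠ 0 := by omega
  by_cases ha : a = 0
  · subst ha
    have hc : c = 0 := by
      have : c ^ (p + 1) = 0 := by
        linear_combination -e3
      exact pow_eq_zero_iff (by omega) |>.1 this
    have hb : b = 0 := by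
      have : b ^ (p + 1) = 0 := by
        rw [zero_pow hp0] at e2
        linear_combination e2
      exact pow_eq_zero_iff (by omega) |>.1 this
    apply hdet
    rw [hb]
    ring
  · apply hdet
    have hap : a ^ p ≠ 0 := pow_ne_zero _ ha
    have : a ^ p * (a * d) = a ^ p * (b * c) := by
      have k1 : a * b ^ p = c * a ^ p := by linear_combination -e1
      have k2 : d * a ^ p = b ^ (p + 1) := by linear_combination -e2
      calc a ^ p * (a * d) = a * (d * a ^ p) := by ring
        _ = a * b ^ (p + 1) := by rw [k2]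
        _ = b * (a * b ^ p) := by ring
        _ = b * (c * a ^ p) := by rw [k1]
        _ = a ^ p * (b * c) := by ring
    exact mul_left_cancel₀ hap this

variable (p : ℕ) [Fact p.Prime] [CharP F p]

theorem fiber_le (L : Finset F) (hL : ∀ x ∈ L, x ≠ 0) (t : (F × F) × (F × F))
    (ht : t ∈ ((L ×ˢ univ) ×ˢ (L ×ˢ univ)).filter (fun t => t.1.2 ≠ t.2.2)) :
    ((((L ×ˢ univ) ×ˢ (L ×ˢ univ)).filter (fun t => t.1.2 ≠ t.2.2)).filter
      (fun u => g p u = g p t)).card ≤ p ^ 2 + 1 := by
  have hp : p.Prime := Fact.out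
  have hp2 : 2 ≤ p := hp.two_le
  set a := (g p t).1 with ha
  set b := (g p t).2.1 with hb
  set c := (g p t).2.2.1 with hc
  set d := (g p t).2.2.2 with hd
  obtain ⟨⟨x1, s1⟩, ⟨x2, s2⟩⟩ := t
  simp only [mem_filter, mem_product, mem_univ, and_true] at ht
  have hx1 := hL _ ht.1.1
  have hx2 := hL _ ht.1.2
  have hs := ht.2
  simp only [g] at ha hb hc hd
  have hsub : ∀ x y : F, x ^ p - y ^ p = (x - y) ^ p := fun x y => (sub_pow_char x y).symm
  have hdet : a * d ≠ b * c := by
    have : a * d - b * c = x1 * x2 * (s1 - s2) ^ (p + 1) := by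
      rw [ha, hb, hc, hd, pow_succ (s1 - s2), ← hsub]
      ring
    rw [← sub_ne_zero, this]
    exact mul_ne_zero (mul_ne_zero hx1 hx2) (pow_ne_zero _ (sub_ne_zero.2 hs))
  have hkey : ∀ u ∈ (((L ×ˢ univ) ×ˢ (L ×ˢ univ)).filter
      (fun t : (F × F) × (F × F) => t.1.2 ≠ t.2.2)).filter
      (fun u => g p u = g p ((x1, s1), (x2, s2))),
      u.2.1 ≠ 0 ∧ u.1.2 ≠ u.2.2 ∧ a = u.1.1 + u.2.1 ∧ b = u.1.1 * u.1.2 + u.2.1 * u.2.2 ∧
      c = u.1.1 * u.1.2 ^ p + u.2.1 * u.2.2 ^ p ∧
      d = u.1.1 * u.1.2 ^ (p + 1) + u.2.1 * u.2.2 ^ (p + 1) := by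
    rintro ⟨⟨y1, r1⟩, ⟨y2, r2⟩⟩ hu
    simp only [mem_filter, mem_product, mem_univ, and_true, g, Prod.mk.injEq] at hu
    obtain ⟨⟨⟨h1, h2⟩, h3⟩, h4, h5, h6, h7⟩ := hu
    exact ⟨hL _ h2, h3, by rw [ha, h4], by rw [hb, h5], by rw [hc, h6], by rw [hd, h7]⟩
  have himg : (((((L ×ˢ univ) ×ˢ (L ×ˢ univ)).filter
      (fun t : (F × F) × (F × F) => t.1.2 ≠ t.2.2)).filter
      (fun u => g p u = g p ((x1, s1), (x2, s2)))).image (fun u => u.1.2)).card ≤ p ^ 2 + 1 := by
    refine (card_le_natDegree (R p a b c d) (R_ne p hp2 a b c d hdet) _ ?_).trans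
      (R_natDegree p hp2 a b c d)
    intro x hx
    rw [mem_image] at hx
    obtain ⟨⟨⟨y1, r1⟩, ⟨y2, r2⟩⟩, hu, rfl⟩ := hx
    obtain ⟨h1, h2, e1, e2, e3, e4⟩ := hkey _ hu
    simp only at h1 h2 e1 e2 e3 e4 ⊢
    simp only [R, Polynomial.eval_add, Polynomial.eval_mul, Polynomial.eval_C,
      Polynomial.eval_pow, Polynomial.eval_X]
    have q1 : r1 * (c - r2 ^ p * a) = d - r2 ^ p * b := by
      rw [e1, e2, e3, e4]; ring
    have q2 : d - r1 ^ p * b = r2 * (c - r1 ^ p * a) := by
      rw [e1, e2, e3, e4]; ring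
    have q3 : d ^ p - r1 ^ (p ^ 2) * b ^ p = (d - r1 ^ p * b) ^ p := by
      rw [← hsub, mul_pow, ← pow_mul, ← sq]
    have q4 : c ^ p - r1 ^ (p ^ 2) * a ^ p = (c - r1 ^ p * a) ^ p := by
      rw [← hsub, mul_pow, ← pow_mul, ← sq]
    have q5 : d ^ p - r1 ^ (p ^ 2) * b ^ p = r2 ^ p * (c ^ p - r1 ^ (p ^ 2) * a ^ p) := by
      rw [q3, q4, q2, mul_pow]
    rw [pow_succ r1 (p ^ 2)]
    linear_combination (c ^ p - r1 ^ (p ^ 2) * a ^ p) * q1 + (b - a * r1) * q5
  refine le_trans (le_of_eq ?_) himg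
  rw [card_image_of_injOn]
  rintro ⟨⟨y1, r1⟩, ⟨y2, r2⟩⟩ hu ⟨⟨z1, w1⟩, ⟨z2, w2⟩⟩ hv huv
  obtain ⟨h1, h2, e1, e2, e3, e4⟩ := hkey _ (mem_coe.1 hu)
  obtain ⟨k1, k2, f1, f2, f3, f4⟩ := hkey _ (mem_coe.1 hv)
  simp only at h1 h2 e1 e2 e3 e4 k1 k2 f1 f2 f3 f4 huv
  subst huv
  have hB : c - r1 ^ p * a = y2 * (r2 - r1) ^ p := by
    rw [← hsub, e1, e3]; ring
  have hBne : c - r1 ^ p * a ≠ 0 := by
    rw [hB]
    exact mul_ne_zero h1 (pow_ne_zero _ (sub_ne_zero.2 h2.symm))
  have q1 : r2 * (c - r1 ^ p * a) = d - r1 ^ p * b := by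
    rw [e1, e2, e3, e4]; ring
  have q2 : w2 * (c - r1 ^ p * a) = d - r1 ^ p * b := by
    rw [f1, f2, f3, f4]; ring
  have q3 : r2 = w2 := mul_right_cancel₀ hBne (q1.trans q2.symm)
  subst q3
  have q4 : (r1 - r2) * y1 = (r1 - r2) * z1 := by
    have m1 : (r1 - r2) * y1 = b - r2 * a := by rw [e1, e2]; ring
    have m2 : (r1 - r2) * z1 = b - r2 * a := by rw [f1, f2]; ring
    rw [m1, m2]
  have q5 : y1 = z1 := mul_left_cancel₀ (sub_ne_zero.2 h2) q4
  subst q5
  have q6 : y2 = z2 := add_left_cancel (e1.symm.trans f1)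
  rw [q6]

theorem coll_bound (m : ℕ) (hm : m * (p + 1) = Fintype.card F - 1) (hm0 : 0 < m) :
    coll ((Rt F m ×ˢ (univ : Finset F)) ×ˢ (Rt F m ×ˢ (univ : Finset F))) (g p) ≤
      6 * Fintype.card F ^ 4 := by
  set L := Rt F m with hLdef
  set q := Fintype.card F with hq
  have hLm : L.card ≤ m := Rt_card_le F m hm0
  have hq1 : 1 ≤ q := Fintype.card_pos
  have hmq : m * (p + 1) ≤ q := by omega
  have hmq' : m ≤ q := le_trans (Nat.le_mul_of_pos_right m (by omega)) hmq
  have hL : ∀ x ∈ L, x ≠ 0 := by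
    intro x hx h
    simp only [hLdef, Rt, mem_filter, mem_univ, true_and] at hx
    rw [h, zero_pow hm0.ne'] at hx
    exact zero_ne_one hx
  have h0 := coll_split ((L ×ˢ (univ : Finset F)) ×ˢ (L ×ˢ (univ : Finset F))) (g p)
    (fun t => t.1.2 ≠ t.2.2)
  set A := ((L ×ˢ (univ : Finset F)) ×ˢ (L ×ˢ (univ : Finset F))).filter
    (fun t => t.1.2 ≠ t.2.2) with hA
  set B := ((L ×ˢ (univ : Finset F)) ×ˢ (L ×ˢ (univ : Finset F))).filter
    (fun t => ¬ (t.1.2 ≠ t.2.2)) with hB
  have hBmem : ∀ t ∈ B, t.1.1 ∈ L ∧ t.2.1 ∈ L ∧ t.1.2 = t.2.2 := by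
    intro t ht
    simp only [hB, mem_filter, mem_product, mem_univ, and_true, not_not] at ht
    exact ⟨ht.1.1, ht.1.2, ht.2⟩
  -- first part
  have hAc : coll A (g p) ≤ q ^ 4 := by
    have h1 := coll_le_of_fiber A (g p) (p ^ 2 + 1) (fun t ht => fiber_le p L hL t ht)
    have h2 : A.card ≤ (m * q) * (m * q) := by
      refine (card_filter_le _ _).trans ?_
      rw [card_product, card_product, card_univ]
      exact Nat.mul_le_mul (Nat.mul_le_mul_right _ hLm) (Nat.mul_le_mul_right _ hLm)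
    calc coll A (g p) ≤ A.card * (p ^ 2 + 1) := h1
      _ ≤ ((m * q) * (m * q)) * (p + 1) ^ 2 := Nat.mul_le_mul h2 (by nlinarith)
      _ = (m * (p + 1)) ^ 2 * q ^ 2 := by ring
      _ ≤ q ^ 2 * q ^ 2 := Nat.mul_le_mul_right _ (Nat.pow_le_pow_left hmq 2)
      _ = q ^ 4 := by ring
  -- second part
  have hBc : coll B (g p) ≤ 2 * q ^ 4 := by
    have hf : ∀ t ∈ B, (B.filter (fun u => g p u = g p t)).card ≤
        (if t.1.1 + t.2.1 = 0 then q * q else 0) + q := by
      intro t ht
      by_cases h : t.1.1 + t.2.1 = 0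
      · rw [if_pos h]
        refine le_trans ?_ (Nat.le_add_right _ _)
        have : (B.filter (fun u => g p u = g p t)).card ≤ (L ×ˢ (univ : Finset F)).card := by
          refine card_le_card_of_injOn (fun u => u.1) ?_ ?_
          · intro u hu
            rw [mem_coe, mem_filter] at hu
            exact mem_coe.2 (mem_product.2 ⟨(hBmem u hu.1).1, mem_univ _⟩)
          · rintro ⟨⟨a, s⟩, ⟨b, s'⟩⟩ hu ⟨⟨c, r⟩, ⟨d, r'⟩⟩ hv huv
            rw [mem_coe, mem_filter] at hu hv
            have e1 := (hBmem _ hu.1).2.2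
            have e2 := (hBmem _ hv.1).2.2
            simp only [Prod.mk.injEq] at huv
            obtain ⟨rfl, rfl⟩ := huv
            have g1 := congrArg Prod.fst hu.2
            have g2 := congrArg Prod.fst hv.2
            simp only [g] at e1 e2 g1 g2
            subst e1
            subst e2
            have : b = d := add_left_cancel (g1.trans g2.symm)
            rw [this]
        refine this.trans ?_
        rw [card_product, card_univ]
        exact Nat.mul_le_mul_right _ (hLm.trans hmq')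
      · rw [if_neg h, zero_add]
        refine le_trans ?_ (hLm.trans hmq')
        refine card_le_card_of_injOn (fun u => u.1.1) ?_ ?_
        · intro u hu
          rw [mem_coe, mem_filter] at hu
          exact mem_coe.2 (hBmem u hu.1).1
        · have hs : ∀ u ∈ B.filter (fun u => g p u = g p t), u.1.2 = t.1.2 := by
            rintro ⟨⟨a, s⟩, ⟨b, s'⟩⟩ hu
            rw [mem_filter] at hu
            have e1 := (hBmem _ hu.1).2.2
            have e2 := (hBmem _ ht).2.2
            have g1 := congrArg Prod.fst hu.2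
            have g2 := congrArg (fun x => x.2.1) hu.2
            simp only [g] at e1 e2 g1 g2 ⊢
            subst e1
            rw [← e2, ← add_mul, ← add_mul, g1] at g2
            exact mul_left_cancel₀ h g2
          rintro ⟨⟨a, s⟩, ⟨b, s'⟩⟩ hu ⟨⟨c, r⟩, ⟨d, r'⟩⟩ hv huv
          have s1 := hs _ (mem_coe.1 hu)
          have s2 := hs _ (mem_coe.1 hv)
          rw [mem_coe, mem_filter] at hu hv
          have e1 := (hBmem _ hu.1).2.2
          have e2 := (hBmem _ hv.1).2.2
          have g1 := congrArg Prod.fst hu.2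
          have g2 := congrArg Prod.fst hv.2
          simp only [g] at e1 e2 g1 g2 s1 s2 huv
          subst e1 e2 huv s1
          subst s2
          have : b = d := add_left_cancel (g1.trans g2.symm)
          rw [this]
    rw [coll_eq_sum]
    refine (sum_le_sum hf).trans ?_
    rw [sum_add_distrib, ← sum_filter, sum_const, sum_const, smul_eq_mul, smul_eq_mul]
    have hB1 : (B.filter (fun t => t.1.1 + t.2.1 = 0)).card ≤ q * q := by
      have : (B.filter (fun t => t.1.1 + t.2.1 = 0)).card ≤ (L ×ˢ (univ : Finset F)).card := by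
        refine card_le_card_of_injOn (fun u => u.1) ?_ ?_
        · intro u hu
          rw [mem_coe, mem_filter] at hu
          exact mem_coe.2 (mem_product.2 ⟨(hBmem u hu.1).1, mem_univ _⟩)
        · rintro ⟨⟨a, s⟩, ⟨b, s'⟩⟩ hu ⟨⟨c, r⟩, ⟨d, r'⟩⟩ hv huv
          rw [mem_coe, mem_filter] at hu hv
          have e1 := (hBmem _ hu.1).2.2
          have e2 := (hBmem _ hv.1).2.2
          simp only [Prod.mk.injEq] at huv
          obtain ⟨rfl, rfl⟩ := huv
          have g1 := hu.2
          have g2 := hv.2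
          simp only at e1 e2 g1 g2
          subst e1
          subst e2
          have : b = d := add_left_cancel (g1.trans g2.symm)
          rw [this]
      refine this.trans ?_
      rw [card_product, card_univ]
      exact Nat.mul_le_mul_right _ (hLm.trans hmq')
    have hB2 : B.card ≤ (q * q) * q := by
      have : B.card ≤ ((L ×ˢ (univ : Finset F)) ×ˢ L).card := by
        refine card_le_card_of_injOn (fun u => (u.1, u.2.1)) ?_ ?_
        · intro u hu
          exact mem_coe.2 (mem_product.2 ⟨mem_product.2 ⟨(hBmem u hu).1, mem_univ _⟩,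
            (hBmem u hu).2.1⟩)
        · rintro ⟨⟨a, s⟩, ⟨b, s'⟩⟩ hu ⟨⟨c, r⟩, ⟨d, r'⟩⟩ hv huv
          have e1 := (hBmem _ hu).2.2
          have e2 := (hBmem _ hv).2.2
          simp only [Prod.mk.injEq] at huv
          obtain ⟨⟨rfl, rfl⟩, rfl⟩ := huv
          simp only at e1 e2
          subst e1
          subst e2
          rfl
      refine this.trans ?_
      rw [card_product, card_product, card_univ]
      exact Nat.mul_le_mul (Nat.mul_le_mul_right _ (hLm.trans hmq')) (hLm.trans hmq')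
    calc (B.filter (fun t => t.1.1 + t.2.1 = 0)).card * (q * q) + B.card * q
        ≤ (q * q) * (q * q) + ((q * q) * q) * q :=
          Nat.add_le_add (Nat.mul_le_mul_right _ hB1) (Nat.mul_le_mul_right _ hB2)
      _ = 2 * q ^ 4 := by ring
  omega

/-- the isotropic vectors -/
def yv (i : F) (s : F) : Fin 4 → F :=
  ![1 + s ^ (p + 1), -i * (1 - s ^ (p + 1)), s - s ^ p, -i * (s + s ^ p)]

/-- the example -/
def E4 (i : F) (m : ℕ) : Finset (Fin 4 → F) :=
  (Rt F m ×ˢ (univ : Finset F)).image (fun x => fun k => x.1 * yv p i x.2 k)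

theorem E4_card (i : F) (hi : i ^ 2 = -1) (h2 : (2 : F) ≠ 0) (m : ℕ) (hm0 : 0 < m) :
    (E4 p i m).card = (Rt F m).card * Fintype.card F := by
  unfold E4
  rw [card_image_of_injOn, card_product, card_univ]
  rintro ⟨a, s⟩ hu ⟨b, r⟩ hv huv
  rw [mem_coe, mem_product] at hu
  have e0 := congrFun huv 0
  have e1 := congrFun huv 1
  have e2 := congrFun huv 2
  have e3 := congrFun huv 3
  simp only [yv, Matrix.cons_val] at e0 e1 e2 e3
  have f1 : (2 : F) * a = 2 * b := by
    linear_combination e0 + i * e1 + (a * (1 - s ^ (p + 1)) - b * (1 - r ^ (p + 1))) * hi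
  have f2 : a = b := mul_left_cancel₀ h2 f1
  subst f2
  have ha : a ≠ 0 := by
    intro h
    have := hu.1
    simp only [Rt, mem_filter, mem_univ, true_and] at this
    rw [h, zero_pow hm0.ne'] at this
    exact zero_ne_one this
  have f3 : (2 * a) * s = (2 * a) * r := by
    linear_combination e2 + i * e3 + (a * (s + s ^ p) - a * (r + r ^ p)) * hi
  have f4 : s = r := mul_left_cancel₀ (mul_ne_zero h2 ha) f3
  rw [f4]

theorem E4_energy (i : F) (hi : i ^ 2 = -1) (h2 : (2 : F) ≠ 0) (m : ℕ)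
    (hm : m * (p + 1) = Fintype.card F - 1) (hm0 : 0 < m) :
    energy (E4 p i m) ≤ 6 * Fintype.card F ^ 4 := by
  unfold E4
  refine (energy_image_le _ _).trans (le_trans ?_ (coll_bound p m hm hm0))
  refine coll_mono _ _ _ ?_
  rintro ⟨⟨a, s⟩, ⟨b, r⟩⟩ _ ⟨⟨a', s'⟩, ⟨b', r'⟩⟩ _ h
  have e0 := congrFun h 0
  have e1 := congrFun h 1
  have e2 := congrFun h 2
  have e3 := congrFun h 3
  simp only [yv, Pi.add_apply, Matrix.cons_val] at e0 e1 e2 e3
  simp only [g, Prod.mk.injEq]
  refine ⟨mul_left_cancel₀ h2 ?_, mul_left_cancel₀ h2 ?_, mul_left_cancel₀ h2 ?_,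
    mul_left_cancel₀ h2 ?_⟩
  · linear_combination e0 + i * e1 + (a * (1 - s ^ (p + 1)) + b * (1 - r ^ (p + 1)) -
      a' * (1 - s' ^ (p + 1)) - b' * (1 - r' ^ (p + 1))) * hi
  · linear_combination e2 + i * e3 + (a * (s + s ^ p) + b * (r + r ^ p) -
      a' * (s' + s' ^ p) - b' * (r' + r' ^ p)) * hi
  · linear_combination -e2 + i * e3 + (a * (s + s ^ p) + b * (r + r ^ p) -
      a' * (s' + s' ^ p) - b' * (r' + r' ^ p)) * hi
  · linear_combination e0 - i * e1 - (a * (1 - s ^ (p + 1)) + b * (1 - r ^ (p + 1)) -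
      a' * (1 - s' ^ (p + 1)) - b' * (1 - r' ^ (p + 1))) * hi

theorem E4_dist (i : F) (hi : i ^ 2 = -1) (m : ℕ)
    (hm : m * (p + 1) = Fintype.card F - 1) (hm0 : 0 < m) :
    (distSet (E4 p i m)).card ≤ m + 1 := by
  have hsub : distSet (E4 p i m) ⊆ (insert 0 (Rt F m)).image (fun x => -4 * x) := by
    intro x hx
    simp only [distSet, E4, mem_image, mem_product, mem_univ, and_true] at hx
    obtain ⟨⟨u, v⟩, ⟨⟨⟨a, s⟩, ha, rfl⟩, ⟨⟨b, r⟩, hb, rfl⟩⟩, rfl⟩ := hx
    rw [mem_image]
    refine ⟨a * b * (s - r) ^ (p + 1), ?_, ?_⟩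
    · by_cases h : s = r
      · rw [h, sub_self, zero_pow (by omega), mul_zero]
        exact mem_insert_self _ _
      · refine mem_insert_of_mem ?_
        simp only [Rt, mem_filter, mem_univ, true_and] at ha hb ⊢
        rw [mul_pow, mul_pow, ha, hb, one_mul, one_mul, ← pow_mul, mul_comm, hm]
        exact FiniteField.pow_card_sub_one_eq_one _ (sub_ne_zero.2 h)
    · have hsub : (s - r) ^ (p + 1) = (s - r) * (s ^ p - r ^ p) := by
        rw [pow_succ, ← sub_pow_char s r]; ring
      rw [Fin.sum_univ_four]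
      simp only [yv, Matrix.cons_val]
      rw [hsub]
      linear_combination (-(a * (1 - s ^ (p + 1)) - b * (1 - r ^ (p + 1))) ^ 2 -
        (a * (s + s ^ p) - b * (r + r ^ p)) ^ 2) * hi
  refine (card_le_card hsub).trans (card_image_le.trans ((card_insert_le _ _).trans ?_))
  exact Nat.add_le_add_right (Rt_card_le F m hm0) 1

end Four

end Pool.Agent.H10.M546
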