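import Pool.Agent.H10.M546.Four
import Pool.Graph.R_seed8.H654R5.PlaneH133
import Pool.Graph.R_seed8.H654R5.T_Sphere

set_option autoImplicit false
set_option linter.unusedSectionVars false

/-!
The three dimensional example: the set of the vectors `η w`, where `w` runs through the unit sphere
of `K^3` and `η` through a group of elements of norm one of the quadratic extension `F` of `K`.
-/

open Finset

namespace Pool.Agent.H10.M546.Three

open Pool.H654R5 (Sph)

variable {K F : Type} [Field K] [Fintype K] [DecidableEq K] [Field F] [Fintype F] [DecidableEq F]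
  [Algebra K F]

theorem frob_add (x y : F) :
    (x + y) ^ Fintype.card K = x ^ Fintype.card K + y ^ Fintype.card K := by
  have h := map_add (FiniteField.frobeniusAlgHom K F) x y
  simpa [FiniteField.coe_frobeniusAlgHom] using h

theorem frob_alg (a : K) : (algebraMap K F a) ^ Fintype.card K = algebraMap K F a := by
  rw [← map_pow, FiniteField.pow_card]

/-- the parameter vector -/
def vec (x : F × (Fin 3 → K)) : Fin 3 → F := fun i => x.1 * algebraMap K F (x.2 i)

/-- the scalar products of a vector `V` and of its conjugate -/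
def ee (V : Fin 3 → F) : F := ∑ i, V i ^ 2

variable (K) in
/-- conjugate scalar product -/
def ee' (V : Fin 3 → F) : F := ∑ i, (V i ^ Fintype.card K) ^ 2

variable (K) in
/-- mixed scalar product -/
def nn (V : Fin 3 → F) : F := ∑ i, V i * V i ^ Fintype.card K

/-- scalar product in `K^3` -/
def dot (a b : Fin 3 → K) : K := ∑ i, a i * b i

theorem conj_inv {x : F} {m n : ℕ} (hmn : m * n = Fintype.card K + 1) (hx : x ^ m = 1) :
    x * x ^ Fintype.card K = 1 := by
  rw [← pow_succ', ← hmn, pow_mul, hx, one_pow]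

theorem ee_eq (x y : F × (Fin 3 → K)) (hx : x.2 ∈ Sph 3 K) (hy : y.2 ∈ Sph 3 K) :
    ee (vec x + vec y) = x.1 ^ 2 + y.1 ^ 2 + 2 * (x.1 * y.1) * algebraMap K F (dot x.2 y.2) := by
  simp only [Sph, mem_filter, mem_univ, true_and] at hx hy
  have hx' := congrArg (algebraMap K F) hx
  have hy' := congrArg (algebraMap K F) hy
  simp only [Fin.sum_univ_three, map_add, map_pow, map_one] at hx' hy'
  simp only [ee, vec, dot, Fin.sum_univ_three, Pi.add_apply, map_add, map_mul]
  linear_combination x.1 ^ 2 * hx' + y.1 ^ 2 * hy'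

theorem frob_vec (x y : F × (Fin 3 → K)) (i : Fin 3) :
    (vec x + vec y) i ^ Fintype.card K =
      x.1 ^ Fintype.card K * algebraMap K F (x.2 i) +
      y.1 ^ Fintype.card K * algebraMap K F (y.2 i) := by
  rw [Pi.add_apply, frob_add (K := K)]
  simp only [vec, mul_pow, frob_alg]

theorem ee'_eq (x y : F × (Fin 3 → K)) (hx : x.2 ∈ Sph 3 K) (hy : y.2 ∈ Sph 3 K) :
    ee' K (vec x + vec y) = (x.1 ^ Fintype.card K) ^ 2 + (y.1 ^ Fintype.card K) ^ 2 +
      2 * (x.1 ^ Fintype.card K * y.1 ^ Fintype.card K) * algebraMap K F (dot x.2 y.2) := by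
  simp only [Sph, mem_filter, mem_univ, true_and] at hx hy
  have hx' := congrArg (algebraMap K F) hx
  have hy' := congrArg (algebraMap K F) hy
  simp only [Fin.sum_univ_three, map_add, map_pow, map_one] at hx' hy'
  simp only [ee', frob_vec, dot, Fin.sum_univ_three, map_add, map_mul]
  linear_combination (x.1 ^ Fintype.card K) ^ 2 * hx' + (y.1 ^ Fintype.card K) ^ 2 * hy'

theorem nn_eq (x y : F × (Fin 3 → K)) (hx : x.2 ∈ Sph 3 K) (hy : y.2 ∈ Sph 3 K) :
    nn K (vec x + vec y) = x.1 * x.1 ^ Fintype.card K + y.1 * y.1 ^ Fintype.card K +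
      (x.1 * y.1 ^ Fintype.card K + x.1 ^ Fintype.card K * y.1) *
        algebraMap K F (dot x.2 y.2) := by
  simp only [Sph, mem_filter, mem_univ, true_and] at hx hy
  have hx' := congrArg (algebraMap K F) hx
  have hy' := congrArg (algebraMap K F) hy
  simp only [Fin.sum_univ_three, map_add, map_pow, map_one] at hx' hy'
  simp only [nn, frob_vec, dot, Fin.sum_univ_three, map_add, map_mul]
  simp only [Pi.add_apply, vec]
  linear_combination (x.1 * x.1 ^ Fintype.card K) * hx' + (y.1 * y.1 ^ Fintype.card K) * hy'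

/-- the two invariants -/
theorem invariants {m n : ℕ} (hmn : m * n = Fintype.card K + 1) (x y : F × (Fin 3 → K))
    (hx : x.2 ∈ Sph 3 K) (hy : y.2 ∈ Sph 3 K) (hx1 : x.1 ^ m = 1) (hy1 : y.1 ^ m = 1) :
    (x.1 * y.1) ^ 2 * ee' K (vec x + vec y) = ee (vec x + vec y) ∧
    (x.1 ^ 2 + y.1 ^ 2) ^ 2 - ee (vec x + vec y) * (x.1 ^ 2 + y.1 ^ 2) +
      2 * (nn K (vec x + vec y) - 2) * (x.1 ^ 2 * y.1 ^ 2) = 0 := by
  have h1 : x.1 * x.1 ^ Fintype.card K = 1 := conj_inv hmn hx1
  have h2 : y.1 * y.1 ^ Fintype.card K = 1 := conj_inv hmn hy1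
  rw [ee_eq x y hx hy, ee'_eq x y hx hy, nn_eq x y hx hy, h1, h2]
  generalize x.1 ^ Fintype.card K = u at *
  generalize y.1 ^ Fintype.card K = v at *
  generalize algebraMap K F (dot x.2 y.2) = c at *
  generalize x.1 = a at *
  generalize y.1 = b at *
  constructor
  · linear_combination (b ^ 2 * (a * u + 1) + 2 * a * b * c * (b * v)) * h1 +
      (a ^ 2 * (b * v + 1) + 2 * a * b * c) * h2
  · linear_combination (2 * c * b ^ 2 * (b * a)) * h1 + (2 * c * a ^ 2 * (a * b)) * h2

theorem eq_of_sq {m : ℕ} (hodd : Odd m) {x y : F} (hx : x ^ m = 1) (hy : y ^ m = 1)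
    (h : x ^ 2 = y ^ 2) : x = y := by
  have hy0 : y ≠ 0 := by
    intro h0
    rw [h0, zero_pow hodd.pos.ne'] at hy
    exact zero_ne_one hy
  have h1 : (x / y) ^ m = 1 := by rw [div_pow, hx, hy, div_one]
  have h2 : (x / y) ^ 2 = 1 := by rw [div_pow, h, div_self (pow_ne_zero 2 hy0)]
  have h3 : (x / y) ^ Nat.gcd m 2 = 1 := pow_gcd_eq_one.2 ⟨h1, h2⟩
  have h4 : Nat.gcd m 2 = 1 := by
    rw [Nat.gcd_comm]
    exact Nat.coprime_two_left.2 hodd
  rw [h4, pow_one] at h3
  exact (div_eq_one_iff_eq hy0).1 h3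

theorem eq_of_alg {m n : ℕ} (hmn : m * n = Fintype.card K + 1) (hodd : Odd m) {x y : F}
    (hx : x ^ m = 1) (hy : y ^ m = 1) (a b : K) (hb : b ≠ 0)
    (h : x * algebraMap K F a = y * algebraMap K F b) : x = y := by
  have hy0 : y ≠ 0 := by
    intro h0
    rw [h0, zero_pow hodd.pos.ne'] at hy
    exact zero_ne_one hy
  have hx0 : x ≠ 0 := by
    intro h0
    rw [h0, zero_pow hodd.pos.ne'] at hx
    exact zero_ne_one hx
  have hb' : algebraMap K F b ≠ 0 := by
    rw [Ne, FaithfulSMul.algebraMap_eq_zero_iff]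
    exact hb
  have ha' : algebraMap K F a ≠ 0 := by
    intro h0
    rw [h0, mul_zero] at h
    exact mul_ne_zero hy0 hb' h.symm
  have ha : a ≠ 0 := by
    intro h0
    exact ha' (by rw [h0, map_zero])
  have h0 : x / y = algebraMap K F (b / a) := by
    rw [map_div₀]
    field_simp
    linear_combination h
  have h1 : (x / y) ^ m = 1 := by rw [div_pow, hx, hy, div_one]
  have h2 : (x / y) ^ (Fintype.card K - 1) = 1 := by
    rw [h0, ← map_pow, FiniteField.pow_card_sub_one_eq_one _ (div_ne_zero hb ha), map_one]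
  have h3 : (x / y) ^ Nat.gcd m (Fintype.card K - 1) = 1 := pow_gcd_eq_one.2 ⟨h1, h2⟩
  have h4 : Nat.gcd m (Fintype.card K - 1) = 1 := by
    have d1 : Nat.gcd m (Fintype.card K - 1) ∣ Fintype.card K + 1 :=
      (Nat.gcd_dvd_left _ _).trans ⟨n, hmn.symm⟩
    have d2 : Nat.gcd m (Fintype.card K - 1) ∣ Fintype.card K - 1 := Nat.gcd_dvd_right _ _
    have hK : 1 < Fintype.card K := Fintype.one_lt_card
    have d3 : Nat.gcd m (Fintype.card K - 1) ∣ 2 := by
      have := Nat.dvd_sub d1 d2
      rwa [show Fintype.card K + 1 - (Fintype.card K - 1) = 2 by omega] at this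
    have d4 : Nat.gcd m (Fintype.card K - 1) ∣ m := Nat.gcd_dvd_left _ _
    rcases (Nat.dvd_prime Nat.prime_two).1 d3 with h | h
    · exact h
    · rw [h] at d4
      exact absurd (even_iff_two_dvd.2 d4) (Nat.not_even_iff_odd.2 hodd)
  rw [h4, pow_one] at h3
  exact (div_eq_one_iff_eq hy0).1 h3

/-- the parameters determine the vectors when `η1 ≠ η2` -/
theorem determined {m n : ℕ} (hmn : m * n = Fintype.card K + 1) (hodd : Odd m)
    (x y x' y' : F × (Fin 3 → K)) (hx1 : x.1 ^ m = 1) (hy1 : y.1 ^ m = 1)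
    (hne : x.1 ≠ y.1) (h1 : x'.1 = x.1) (h2 : y'.1 = y.1)
    (h : vec x + vec y = vec x' + vec y') : x = x' ∧ y = y' := by
  have hy0 : y.1 ≠ 0 := by
    intro h0
    rw [h0, zero_pow hodd.pos.ne'] at hy1
    exact zero_ne_one hy1
  have g1 : x.1 * x.1 ^ Fintype.card K = 1 := conj_inv hmn hx1
  have g2 : y.1 * y.1 ^ Fintype.card K = 1 := conj_inv hmn hy1
  have hne2 : x.1 ^ 2 ≠ y.1 ^ 2 := fun h => hne (eq_of_sq hodd hx1 hy1 h)
  have hc : x.1 - y.1 ^ 2 * x.1 ^ Fintype.card K ≠ 0 := by
    intro h0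
    apply hne2
    have : x.1 * (x.1 - y.1 ^ 2 * x.1 ^ Fintype.card K) = 0 := by rw [h0, mul_zero]
    linear_combination this + y.1 ^ 2 * g1
  have key : x.2 = x'.2 := by
    funext i
    have e1 := congrFun h i
    have e2 := congrArg (fun z => z ^ Fintype.card K) e1
    simp only [frob_vec] at e2
    simp only [Pi.add_apply, vec] at e1
    rw [h1, h2] at e1 e2
    have e3 : (x.1 - y.1 ^ 2 * x.1 ^ Fintype.card K) * algebraMap K F (x.2 i) =
        (x.1 - y.1 ^ 2 * x.1 ^ Fintype.card K) * algebraMap K F (x'.2 i) := by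
      linear_combination e1 - y.1 ^ 2 * e2 +
        (y.1 * algebraMap K F (y.2 i) - y.1 * algebraMap K F (y'.2 i)) * g2
    exact (algebraMap K F).injective (mul_left_cancel₀ hc e3)
  have key2 : y.2 = y'.2 := by
    funext i
    have e1 := congrFun h i
    simp only [Pi.add_apply, vec] at e1
    rw [h1, h2, key] at e1
    exact (algebraMap K F).injective (mul_left_cancel₀ hy0 (add_left_cancel e1))
  exact ⟨Prod.ext h1.symm key, Prod.ext h2.symm key2⟩

theorem quad_ne (a b : F) : (Polynomial.X ^ 2 + (Polynomial.C a * Polynomial.X +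
    Polynomial.C b) : Polynomial F) ≠ 0 := by
  intro h0
  have := congrArg (fun P => Polynomial.coeff P 2) h0
  simp at this

theorem quart_ne (a b c d : F) : (Polynomial.X ^ 4 + (Polynomial.C a * Polynomial.X ^ 3 +
    (Polynomial.C b * Polynomial.X ^ 2 + (Polynomial.C c * Polynomial.X +
    Polynomial.C d))) : Polynomial F) ≠ 0 := by
  intro h0
  have := congrArg (fun P => Polynomial.coeff P 4) h0
  simp [Polynomial.coeff_X_pow] at this

/-- the parameter set -/
def Par (K F : Type) [Field K] [Fintype K] [DecidableEq K] [Field F] [Fintype F] [DecidableEq F]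
    [Algebra K F] (m : ℕ) : Finset (F × (Fin 3 → K)) := Rt F m ×ˢ Sph 3 K

theorem mem_Par {m : ℕ} (x : F × (Fin 3 → K)) :
    x ∈ Par K F m ↔ x.1 ^ m = 1 ∧ x.2 ∈ Sph 3 K := by
  simp only [Par, mem_product, Rt, mem_filter, mem_univ, true_and]

/-- the pairs of parameters with given sum and different first components -/
theorem fiberA {m n : ℕ} (hmn : m * n = Fintype.card K + 1) (hodd : Odd m)
    (V : Fin 3 → F) :
    ((((Par K F m) ×ˢ (Par K F m)).filter (fun t => t.1.1 ≠ t.2.1)).filter
      (fun u => vec u.1 + vec u.2 = V)).card ≤ if ee V = 0 then m * 2 else 4 := by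
  set A := ((((Par K F m) ×ˢ (Par K F m)).filter (fun t => t.1.1 ≠ t.2.1)).filter
      (fun u => vec u.1 + vec u.2 = V)) with hA
  have hm0 : 0 < m := hodd.pos
  have hmem : ∀ u ∈ A, u.1.1 ^ m = 1 ∧ u.1.2 ∈ Sph 3 K ∧ u.2.1 ^ m = 1 ∧ u.2.2 ∈ Sph 3 K ∧
      u.1.1 ≠ u.2.1 ∧ vec u.1 + vec u.2 = V := by
    intro u hu
    rw [hA, mem_filter, mem_filter, mem_product, mem_Par, mem_Par] at hu
    exact ⟨hu.1.1.1.1, hu.1.1.1.2, hu.1.1.2.1, hu.1.1.2.2, hu.1.2, hu.2⟩
  have hdet : ∀ u ∈ A, ∀ v ∈ A, u.1.1 = v.1.1 → u.2.1 = v.2.1 → u = v := by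
    intro u hu v hv h1 h2
    obtain ⟨a1, a2, a3, a4, a5, a6⟩ := hmem u hu
    obtain ⟨b1, b2, b3, b4, b5, b6⟩ := hmem v hv
    obtain ⟨h3, h4⟩ := determined hmn hodd u.1 u.2 v.1 v.2 a1 a3 a5 h1.symm h2.symm
      (a6.trans b6.symm)
    exact Prod.ext h3 h4
  have hne0 : ∀ x : F, x ^ m = 1 → x ≠ 0 := by
    intro x hx h0
    rw [h0, zero_pow hm0.ne'] at hx
    exact zero_ne_one hx
  by_cases he : ee V = 0
  · rw [if_pos he]
    have h1 : A.card ≤ 2 * (A.image (fun u => u.2.1)).card := by
      refine card_le_mul_card_image _ _ fun b hb => ?_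
      -- fixed second component
      have h2 : (((A.filter (fun u => u.2.1 = b)).image (fun u => u.1.1 ^ 2))).card ≤ 2 := by
        have h3 := card_le_natDegree (Polynomial.X ^ 2 +
          (Polynomial.C (2 * b ^ 2 + 2 * (nn K V - 2) * b ^ 2) * Polynomial.X +
            Polynomial.C (b ^ 4)) : Polynomial F) ?_
          ((A.filter (fun u => u.2.1 = b)).image (fun u => u.1.1 ^ 2)) ?_
        · refine h3.trans ?_
          compute_degree
        · exact quad_ne _ _
        · intro x hx
          rw [mem_image] at hx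
          obtain ⟨u, hu, rfl⟩ := hx
          rw [mem_filter] at hu
          obtain ⟨a1, a2, a3, a4, a5, a6⟩ := hmem u hu.1
          have hi := (invariants hmn u.1 u.2 a2 a4 a1 a3).2
          rw [a6, he, hu.2] at hi
          simp only [Polynomial.eval_add, Polynomial.eval_mul, Polynomial.eval_C,
            Polynomial.eval_pow, Polynomial.eval_X]
          linear_combination hi
      refine le_trans (le_of_eq ?_) h2
      rw [card_image_of_injOn]
      intro u hu v hv huv
      rw [mem_coe, mem_filter] at hu hv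
      obtain ⟨a1, a2, a3, a4, a5, a6⟩ := hmem u hu.1
      obtain ⟨b1, b2, b3, b4, b5, b6⟩ := hmem v hv.1
      exact hdet u hu.1 v hv.1 (eq_of_sq hodd a1 b1 huv) (hu.2.trans hv.2.symm)
    have h2 : (A.image (fun u => u.2.1)).card ≤ m := by
      refine (card_le_card (t := Rt F m) ?_).trans (Rt_card_le F m hm0)
      intro x hx
      rw [mem_image] at hx
      obtain ⟨u, hu, rfl⟩ := hx
      simp only [Rt, mem_filter, mem_univ, true_and]
      exact (hmem u hu).2.2.1
    omega
  · rw [if_neg he]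
    set P := ee V / ee' K V with hP
    have hPe : ∀ u ∈ A, P = u.1.1 ^ 2 * u.2.1 ^ 2 := by
      intro u hu
      obtain ⟨a1, a2, a3, a4, a5, a6⟩ := hmem u hu
      have hi := (invariants hmn u.1 u.2 a2 a4 a1 a3).1
      rw [a6] at hi
      have he' : ee' K V ≠ 0 := by
        intro h0
        rw [h0, mul_zero] at hi
        exact he hi.symm
      rw [hP, div_eq_iff he', ← hi]
      ring
    have h2 : ((A.image (fun u => u.1.1 ^ 2))).card ≤ 4 := by
      have h3 := card_le_natDegree (Polynomial.X ^ 4 +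
          (Polynomial.C (-ee V) * Polynomial.X ^ 3 +
          (Polynomial.C (2 * P + 2 * (nn K V - 2) * P) * Polynomial.X ^ 2 +
          (Polynomial.C (-ee V * P) * Polynomial.X +
            Polynomial.C (P ^ 2)))) : Polynomial F) ?_
          (A.image (fun u => u.1.1 ^ 2)) ?_
      · refine h3.trans ?_
        compute_degree
      · exact quart_ne _ _ _ _
      · intro x hx
        rw [mem_image] at hx
        obtain ⟨u, hu, rfl⟩ := hx
        have hPu := hPe u hu
        obtain ⟨a1, a2, a3, a4, a5, a6⟩ := hmem u hu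
        have hi := (invariants hmn u.1 u.2 a2 a4 a1 a3).2
        rw [a6] at hi
        simp only [Polynomial.eval_add, Polynomial.eval_mul, Polynomial.eval_C,
          Polynomial.eval_pow, Polynomial.eval_X]
        rw [hPu]
        linear_combination (u.1.1 ^ 4) * hi
    refine le_trans (le_of_eq ?_) h2
    rw [card_image_of_injOn]
    intro u hu v hv huv
    have hu' := hPe u hu
    have hv' := hPe v hv
    simp only at huv
    obtain ⟨a1, a2, a3, a4, a5, a6⟩ := hmem u hu
    obtain ⟨b1, b2, b3, b4, b5, b6⟩ := hmem v hv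
    refine hdet u hu v hv (eq_of_sq hodd a1 b1 huv) (eq_of_sq hodd a3 b3 ?_)
    rw [hu', huv] at hv'
    exact mul_left_cancel₀ (pow_ne_zero 2 (hne0 _ b1)) hv'

theorem zero_count {m : ℕ} (h2 : (2 : F) ≠ 0) (hm0 : 0 < m) :
    (((Par K F m) ×ˢ (Par K F m)).filter (fun t => ee (vec t.1 + vec t.2) = 0)).card ≤
      (m * (Sph 3 K).card * m) * (3 * Fintype.card K) := by
  set Z := ((Par K F m) ×ˢ (Par K F m)).filter (fun t => ee (vec t.1 + vec t.2) = 0) with hZ
  have h2K : (2 : K) ≠ 0 := by
    intro h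
    apply h2
    have := congrArg (algebraMap K F) h
    rwa [map_ofNat, map_zero] at this
  have h1 : Z.card ≤ (3 * Fintype.card K) * (Z.image (fun t => (t.1, t.2.1))).card := by
    refine card_le_mul_card_image _ _ fun b hb => ?_
    rw [mem_image] at hb
    obtain ⟨t, ht, rfl⟩ := hb
    rw [hZ, mem_filter, mem_product, mem_Par, mem_Par] at ht
    have hw : t.1.2 ≠ 0 := by
      intro h0
      have := ht.1.1.2
      rw [h0] at this
      simp [Sph] at this
    have hp := Pool.H654R5.PlaneH133.plane3 3 le_rfl K h2K t.1.2 hw (∑ i, t.1.2 i * t.2.2 i)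
    rw [show 3 - 2 = 1 by norm_num, pow_one] at hp
    refine le_trans (card_le_card_of_injOn (fun u => u.2.2) ?_ ?_) hp
    · intro u hu
      rw [mem_coe, mem_filter, hZ, mem_filter, mem_product, mem_Par, mem_Par] at hu
      obtain ⟨⟨hu1, hu2⟩, hu3⟩ := hu
      simp only [Prod.mk.injEq] at hu3
      rw [mem_coe, mem_filter]
      refine ⟨hu1.2.2, ?_⟩
      have e1 := ee_eq t.1 t.2 ht.1.1.2 ht.1.2.2
      have e2 := ee_eq u.1 u.2 hu1.1.2 hu1.2.2
      rw [ht.2] at e1
      rw [hu2, hu3.1, hu3.2] at e2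
      have hne0 : ∀ x : F, x ^ m = 1 → x ≠ 0 := by
        intro x hx h0
        rw [h0, zero_pow hm0.ne'] at hx
        exact zero_ne_one hx
      have hc : 2 * (t.1.1 * t.2.1) ≠ 0 :=
        mul_ne_zero h2 (mul_ne_zero (hne0 _ ht.1.1.1) (hne0 _ ht.1.2.1))
      have e3 : 2 * (t.1.1 * t.2.1) * algebraMap K F (dot t.1.2 u.2.2) =
          2 * (t.1.1 * t.2.1) * algebraMap K F (dot t.1.2 t.2.2) := by
        linear_combination e1 - e2
      exact (algebraMap K F).injective (mul_left_cancel₀ hc e3)
    · intro u hu v hv huv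
      rw [mem_coe, mem_filter] at hu hv
      have hu3 := hu.2
      have hv3 := hv.2
      simp only [Prod.mk.injEq] at hu3 hv3
      exact Prod.ext (hu3.1.trans hv3.1.symm) (Prod.ext (hu3.2.trans hv3.2.symm) huv)
  have h3 : (Z.image (fun t => (t.1, t.2.1))).card ≤ m * (Sph 3 K).card * m := by
    refine (card_le_card (t := (Par K F m) ×ˢ (Rt F m)) ?_).trans ?_
    · intro x hx
      rw [mem_image] at hx
      obtain ⟨t, ht, rfl⟩ := hx
      rw [hZ, mem_filter, mem_product] at ht
      rw [mem_product]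
      refine ⟨ht.1.1, ?_⟩
      have := (mem_Par _).1 ht.1.2
      simp only [Rt, mem_filter, mem_univ, true_and]
      exact this.1
    · rw [card_product, Par, card_product]
      exact Nat.mul_le_mul (Nat.mul_le_mul_right _ (Rt_card_le F m hm0)) (Rt_card_le F m hm0)
  calc Z.card ≤ (3 * Fintype.card K) * (Z.image (fun t => (t.1, t.2.1))).card := h1
    _ ≤ (3 * Fintype.card K) * (m * (Sph 3 K).card * m) := Nat.mul_le_mul_left _ h3
    _ = _ := by ring

theorem collA {m n : ℕ} (h2 : (2 : F) ≠ 0) (hmn : m * n = Fintype.card K + 1) (hodd : Odd m) :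
    coll (((Par K F m) ×ˢ (Par K F m)).filter (fun t => t.1.1 ≠ t.2.1))
      (fun t => vec t.1 + vec t.2) ≤
      4 * (m * (Sph 3 K).card) ^ 2 +
        ((m * (Sph 3 K).card * m) * (3 * Fintype.card K)) * (m * 2) := by
  set A := ((Par K F m) ×ˢ (Par K F m)).filter (fun t => t.1.1 ≠ t.2.1) with hA
  have hm0 : 0 < m := hodd.pos
  rw [coll_eq_sum]
  have h1 : ∀ t ∈ A, (A.filter (fun u => vec u.1 + vec u.2 = vec t.1 + vec t.2)).card ≤
      4 + if ee (vec t.1 + vec t.2) = 0 then m * 2 else 0 := by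
    intro t _
    refine (fiberA hmn hodd (vec t.1 + vec t.2)).trans ?_
    split_ifs <;> omega
  refine (sum_le_sum h1).trans ?_
  rw [sum_add_distrib, ← sum_filter, sum_const, sum_const, smul_eq_mul, smul_eq_mul]
  refine Nat.add_le_add ?_ (Nat.mul_le_mul_right _ ?_)
  · have : A.card ≤ (m * (Sph 3 K).card) ^ 2 := by
      refine (card_filter_le _ _).trans ?_
      rw [card_product, Par, card_product, sq]
      exact Nat.mul_le_mul (Nat.mul_le_mul_right _ (Rt_card_le F m hm0))
        (Nat.mul_le_mul_right _ (Rt_card_le F m hm0))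
    rw [mul_comm 4]
    exact Nat.mul_le_mul_right _ this
  · refine (card_le_card ?_).trans (zero_count h2 hm0)
    exact filter_subset_filter _ (filter_subset _ _)

theorem sph_neg (w : Fin 3 → K) (hw : w ∈ Sph 3 K) : -w ∈ Sph 3 K := by
  simp only [Sph, mem_filter, mem_univ, true_and, Pi.neg_apply, neg_sq] at hw ⊢
  exact hw

theorem collB {m n : ℕ} (h2 : (2 : F) ≠ 0) (hmn : m * n = Fintype.card K + 1) (hodd : Odd m) :
    coll (((Par K F m) ×ˢ (Par K F m)).filter (fun t => ¬ (t.1.1 ≠ t.2.1)))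
      (fun t => vec t.1 + vec t.2) ≤
      (m * (Sph 3 K).card) * (m * (Sph 3 K).card) +
        (m * (Sph 3 K).card * (Sph 3 K).card) * (3 * Fintype.card K) := by
  set B := ((Par K F m) ×ˢ (Par K F m)).filter (fun t => ¬ (t.1.1 ≠ t.2.1)) with hB
  have hm0 : 0 < m := hodd.pos
  have h2K : (2 : K) ≠ 0 := by
    intro h
    apply h2
    have := congrArg (algebraMap K F) h
    rwa [map_ofNat, map_zero] at this
  have hne0 : ∀ x : F, x ^ m = 1 → x ≠ 0 := by
    intro x hx h0
    rw [h0, zero_pow hm0.ne'] at hx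
    exact zero_ne_one hx
  have hPc : (Par K F m).card ≤ m * (Sph 3 K).card := by
    rw [Par, card_product]
    exact Nat.mul_le_mul_right _ (Rt_card_le F m hm0)
  have hmem : ∀ t ∈ B, t.1 ∈ Par K F m ∧ t.2 ∈ Par K F m ∧ t.1.1 = t.2.1 := by
    intro t ht
    rw [hB, mem_filter, mem_product, not_not] at ht
    exact ⟨ht.1.1, ht.1.2, ht.2⟩
  have hvec : ∀ t ∈ B, ∀ i, (vec t.1 + vec t.2) i =
      t.1.1 * algebraMap K F ((t.1.2 + t.2.2) i) := by
    intro t ht i
    rw [Pi.add_apply, Pi.add_apply]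
    simp only [vec]
    rw [← (hmem t ht).2.2, map_add]
    ring
  have hf : ∀ t ∈ B, (B.filter (fun u => vec u.1 + vec u.2 = vec t.1 + vec t.2)).card ≤
      (if t.1.2 + t.2.2 = 0 then m * (Sph 3 K).card else 0) + 3 * Fintype.card K := by
    intro t ht
    by_cases h : t.1.2 + t.2.2 = 0
    · rw [if_pos h]
      refine le_trans ?_ (Nat.le_add_right _ _)
      refine le_trans ?_ hPc
      have hz : ∀ u ∈ B.filter (fun u => vec u.1 + vec u.2 = vec t.1 + vec t.2),
          u.1.2 + u.2.2 = 0 := by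
        intro u hu
        rw [mem_filter] at hu
        funext i
        have e1 := congrFun hu.2 i
        rw [hvec u hu.1, hvec t ht, h, Pi.zero_apply, map_zero, mul_zero] at e1
        have e2 := (mul_eq_zero.1 e1).resolve_left
          (hne0 _ ((mem_Par _).1 (hmem u hu.1).1).1)
        exact (FaithfulSMul.algebraMap_eq_zero_iff K F).1 e2
      refine card_le_card_of_injOn (fun u => u.1) ?_ ?_
      · intro u hu
        rw [mem_coe, mem_filter] at hu
        exact (hmem u hu.1).1
      · intro u hu v hv huv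
        have z1 := hz u (mem_coe.1 hu)
        have z2 := hz v (mem_coe.1 hv)
        rw [mem_coe, mem_filter] at hu hv
        simp only at huv
        refine Prod.ext huv (Prod.ext ?_ ?_)
        · rw [← (hmem u hu.1).2.2, ← (hmem v hv.1).2.2, huv]
        · rw [huv] at z1
          exact add_left_cancel (z1.trans z2.symm)
    · rw [if_neg h, zero_add]
      obtain ⟨i, hi⟩ : ∃ i, (t.1.2 + t.2.2) i ≠ 0 := by
        by_contra hcon
        push Not at hcon
        exact h (funext hcon)
      have tm := hmem t ht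
      rw [mem_Par, mem_Par] at tm
      have heta : ∀ u ∈ B.filter (fun u => vec u.1 + vec u.2 = vec t.1 + vec t.2),
          u.1.1 = t.1.1 := by
        intro u hu
        rw [mem_filter] at hu
        have um := hmem u hu.1
        rw [mem_Par, mem_Par] at um
        have e1 := congrFun hu.2 i
        rw [hvec u hu.1, hvec t ht] at e1
        exact eq_of_alg hmn hodd um.1.1 tm.1.1 _ _ hi e1
      have hw : ∀ u ∈ B.filter (fun u => vec u.1 + vec u.2 = vec t.1 + vec t.2),
          u.1.2 + u.2.2 = t.1.2 + t.2.2 := by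
        intro u hu
        have e0 := heta u hu
        rw [mem_filter] at hu
        funext j
        have e1 := congrFun hu.2 j
        rw [hvec u hu.1, hvec t ht, e0] at e1
        exact (algebraMap K F).injective (mul_left_cancel₀ (hne0 _ tm.1.1) e1)
      have hp := Pool.H654R5.PlaneH133.plane3 3 le_rfl K h2K (t.1.2 + t.2.2) h
        ((∑ i, (t.1.2 + t.2.2) i ^ 2) / 2)
      rw [show 3 - 2 = 1 by norm_num, pow_one] at hp
      refine le_trans (card_le_card_of_injOn (fun u => u.1.2) ?_ ?_) hp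
      · intro u hu
        have e0 := hw u (mem_coe.1 hu)
        rw [mem_coe, mem_filter] at hu
        have um := hmem u hu.1
        rw [mem_Par, mem_Par] at um
        rw [mem_coe, mem_filter]
        refine ⟨um.1.2, ?_⟩
        rw [← e0]
        have s1 := um.1.2
        have s2 := um.2.1.2
        simp only [Sph, mem_filter, mem_univ, true_and, Fin.sum_univ_three] at s1 s2
        simp only [Fin.sum_univ_three, Pi.add_apply]
        rw [eq_div_iff h2K]
        linear_combination s1 - s2
      · intro u hu v hv huv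
        have e1 := hw u (mem_coe.1 hu)
        have e2 := hw v (mem_coe.1 hv)
        have e3 := heta u (mem_coe.1 hu)
        have e4 := heta v (mem_coe.1 hv)
        rw [mem_coe, mem_filter] at hu hv
        simp only at huv
        have e5 : u.2.2 = v.2.2 := by
          rw [huv] at e1
          exact add_left_cancel (e1.trans e2.symm)
        refine Prod.ext (Prod.ext (e3.trans e4.symm) huv) (Prod.ext ?_ e5)
        rw [← (hmem u hu.1).2.2, ← (hmem v hv.1).2.2, e3, e4]
  rw [coll_eq_sum]
  refine (sum_le_sum hf).trans ?_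
  rw [sum_add_distrib, ← sum_filter, sum_const, sum_const, smul_eq_mul, smul_eq_mul]
  refine Nat.add_le_add (Nat.mul_le_mul_right _ ?_) (Nat.mul_le_mul_right _ ?_)
  · refine le_trans (card_le_card_of_injOn (fun u => u.1) ?_ ?_) hPc
    · intro u hu
      rw [mem_coe, mem_filter] at hu
      exact (hmem u hu.1).1
    · intro u hu v hv huv
      rw [mem_coe, mem_filter] at hu hv
      simp only at huv
      refine Prod.ext huv (Prod.ext ?_ ?_)
      · rw [← (hmem u hu.1).2.2, ← (hmem v hv.1).2.2, huv]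
      · have z1 := hu.2
        have z2 := hv.2
        rw [huv] at z1
        exact add_left_cancel (z1.trans z2.symm)
  · have : B.card ≤ ((Par K F m) ×ˢ (Sph 3 K)).card := by
      refine card_le_card_of_injOn (fun u => (u.1, u.2.2)) ?_ ?_
      · intro u hu
        have um := hmem u hu
        exact mem_coe.2 (mem_product.2 ⟨um.1, ((mem_Par _).1 um.2.1).2⟩)
      · intro u hu v hv huv
        simp only [Prod.mk.injEq] at huv
        refine Prod.ext huv.1 (Prod.ext ?_ huv.2)
        rw [← (hmem u hu).2.2, ← (hmem v hv).2.2, huv.1]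
    refine this.trans ?_
    rw [card_product]
    exact Nat.mul_le_mul_right _ hPc

/-- the example -/
def E3 (K F : Type) [Field K] [Fintype K] [DecidableEq K] [Field F] [Fintype F] [DecidableEq F]
    [Algebra K F] (m : ℕ) : Finset (Fin 3 → F) := (Par K F m).image vec

theorem E3_energy {m n : ℕ} (h2 : (2 : F) ≠ 0) (hmn : m * n = Fintype.card K + 1) (hn : 2 ≤ n)
    (hodd : Odd m) (hS : (Sph 3 K).card ≤ 2 * Fintype.card K ^ 2) :
    energy (E3 K F m) ≤ 88 * Fintype.card K ^ 6 := by
  unfold E3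
  refine (energy_image_le _ _).trans ((coll_split _ _ (fun t => t.1.1 ≠ t.2.1)).trans ?_)
  have hA := collA h2 hmn hodd
  have hB := collB h2 hmn hodd
  have hm : m ≤ Fintype.card K := by
    have := hodd.pos
    nlinarith
  have hmS : m * (Sph 3 K).card ≤ Fintype.card K * (2 * Fintype.card K ^ 2) :=
    Nat.mul_le_mul hm hS
  refine (Nat.add_le_add (Nat.mul_le_mul_left 2 hA) (Nat.mul_le_mul_left 2 hB)).trans ?_
  generalize Fintype.card K = k at *
  generalize (Sph 3 K).card = S at *
  have h1 : (m * S) ^ 2 ≤ (k * (2 * k ^ 2)) ^ 2 := Nat.pow_le_pow_left hmS 2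
  have h3 : (m * S * m) * (3 * k) * (m * 2) ≤ (k * (2 * k ^ 2) * k) * (3 * k) * (k * 2) :=
    Nat.mul_le_mul (Nat.mul_le_mul_right _ (Nat.mul_le_mul hmS hm)) (Nat.mul_le_mul_right _ hm)
  have h4 : (m * S) * (m * S) ≤ (k * (2 * k ^ 2)) * (k * (2 * k ^ 2)) := Nat.mul_le_mul hmS hmS
  have h5 : (m * S * S) * (3 * k) ≤ (k * (2 * k ^ 2) * (2 * k ^ 2)) * (3 * k) :=
    Nat.mul_le_mul_right _ (Nat.mul_le_mul hmS hS)
  calc _ ≤ 2 * (4 * (k * (2 * k ^ 2)) ^ 2 + (k * (2 * k ^ 2) * k) * (3 * k) * (k * 2)) +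
        2 * ((k * (2 * k ^ 2)) * (k * (2 * k ^ 2)) +
          (k * (2 * k ^ 2) * (2 * k ^ 2)) * (3 * k)) := by
        refine Nat.add_le_add (Nat.mul_le_mul_left 2 (Nat.add_le_add
          (Nat.mul_le_mul_left 4 h1) h3)) (Nat.mul_le_mul_left 2 (Nat.add_le_add h4 h5))
    _ = 88 * k ^ 6 := by ring

theorem E3_card {m : ℕ} (hodd : Odd m) :
    (E3 K F m).card = (Rt F m).card * (Sph 3 K).card := by
  unfold E3
  rw [card_image_of_injOn, Par, card_product]
  intro x hx y hy h
  rw [mem_coe, mem_Par] at hx hy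
  have hne0 : ∀ x : F, x ^ m = 1 → x ≠ 0 := by
    intro x hx h0
    rw [h0, zero_pow hodd.pos.ne'] at hx
    exact zero_ne_one hx
  have e1 : x.1 ^ 2 = y.1 ^ 2 := by
    have h1 := hx.2
    have h3 := hy.2
    simp only [Sph, mem_filter, mem_univ, true_and] at h1 h3
    have g1 := congrArg (algebraMap K F) h1
    have g3 := congrArg (algebraMap K F) h3
    simp only [Fin.sum_univ_three, map_add, map_pow, map_one] at g1 g3
    have k0 := congrFun h 0
    have k1 := congrFun h 1
    have k2 := congrFun h 2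
    simp only [vec] at k0 k1 k2
    have l0 := congrArg (fun z => z ^ 2) k0
    have l1 := congrArg (fun z => z ^ 2) k1
    have l2 := congrArg (fun z => z ^ 2) k2
    linear_combination l0 + l1 + l2 - x.1 ^ 2 * g1 + y.1 ^ 2 * g3
  have e2 := eq_of_sq hodd hx.1 hy.1 e1
  refine Prod.ext e2 ?_
  funext i
  have k0 := congrFun h i
  simp only [vec] at k0
  rw [e2] at k0
  exact (algebraMap K F).injective (mul_left_cancel₀ (hne0 _ hy.1) k0)

/-- elements fixed by the Frobenius of `K` come from `K` -/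
theorem mem_range_of_frob (x : F) (hx : x ^ Fintype.card K = x) : ∃ a : K, algebraMap K F a = x := by
  by_contra hcon
  push Not at hcon
  have hK : 1 < Fintype.card K := Fintype.one_lt_card
  have h1 := card_le_natDegree (Polynomial.X ^ Fintype.card K - Polynomial.X : Polynomial F)
    (FiniteField.X_pow_card_sub_X_ne_zero F hK)
    (insert x ((univ : Finset K).image (algebraMap K F))) (by
      intro y hy
      rw [mem_insert, mem_image] at hy
      simp only [Polynomial.eval_sub, Polynomial.eval_pow, Polynomial.eval_X]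
      rcases hy with rfl | ⟨a, _, rfl⟩
      · rw [hx, sub_self]
      · rw [frob_alg, sub_self])
  rw [FiniteField.X_pow_card_sub_X_natDegree_eq F hK, card_insert_of_notMem (by
    rw [mem_image]
    rintro ⟨a, _, ha⟩
    exact hcon a ha), card_image_of_injective _ (algebraMap K F).injective, card_univ] at h1
  omega

theorem E3_dist {m n : ℕ} (hmn : m * n = Fintype.card K + 1) (hm0 : 0 < m) :
    (distSet (E3 K F m)).card ≤ m * Fintype.card K := by
  have hsub : distSet (E3 K F m) ⊆ ((Rt F m) ×ˢ (univ : Finset K)).image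
      (fun x => x.1 * algebraMap K F x.2) := by
    intro z hz
    simp only [distSet, mem_image, mem_product, E3] at hz
    obtain ⟨⟨u, v⟩, ⟨⟨x, hx, rfl⟩, ⟨y, hy, rfl⟩⟩, rfl⟩ := hz
    rw [mem_Par] at hx hy
    have h1 : x.1 * x.1 ^ Fintype.card K = 1 := conj_inv hmn hx.1
    have h2 : y.1 * y.1 ^ Fintype.card K = 1 := conj_inv hmn hy.1
    have hcard : 0 < Fintype.card K := Fintype.card_pos
    -- the element `x/y + y/x`
    have hT : ∃ a : K, algebraMap K F a =
        x.1 * y.1 ^ Fintype.card K + x.1 ^ Fintype.card K * y.1 := by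
      apply mem_range_of_frob
      rw [frob_add (K := K), mul_pow, mul_pow]
      have hx2 : (x.1 ^ Fintype.card K) ^ Fintype.card K = x.1 := by
        have k1 : x.1 ^ Fintype.card K * (x.1 ^ Fintype.card K) ^ Fintype.card K = 1 := by
          rw [← mul_pow, h1, one_pow]
        calc (x.1 ^ Fintype.card K) ^ Fintype.card K
            = (x.1 * x.1 ^ Fintype.card K) * (x.1 ^ Fintype.card K) ^ Fintype.card K := by
              rw [h1, one_mul]
          _ = x.1 * (x.1 ^ Fintype.card K * (x.1 ^ Fintype.card K) ^ Fintype.card K) := by ring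
          _ = x.1 := by rw [k1, mul_one]
      have hy2 : (y.1 ^ Fintype.card K) ^ Fintype.card K = y.1 := by
        have k1 : y.1 ^ Fintype.card K * (y.1 ^ Fintype.card K) ^ Fintype.card K = 1 := by
          rw [← mul_pow, h2, one_pow]
        calc (y.1 ^ Fintype.card K) ^ Fintype.card K
            = (y.1 * y.1 ^ Fintype.card K) * (y.1 ^ Fintype.card K) ^ Fintype.card K := by
              rw [h2, one_mul]
          _ = y.1 * (y.1 ^ Fintype.card K * (y.1 ^ Fintype.card K) ^ Fintype.card K) := by ring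
          _ = y.1 := by rw [k1, mul_one]
      rw [hx2, hy2]
      ring
    obtain ⟨a, ha⟩ := hT
    rw [mem_image]
    refine ⟨(x.1 * y.1, a - 2 * dot x.2 y.2), ?_, ?_⟩
    · rw [mem_product]
      refine ⟨?_, mem_univ _⟩
      simp only [Rt, mem_filter, mem_univ, true_and]
      rw [mul_pow, hx.1, hy.1, one_mul]
    · have s1 := hx.2
      have s2 := hy.2
      simp only [Sph, mem_filter, mem_univ, true_and] at s1 s2
      have g1 := congrArg (algebraMap K F) s1
      have g3 := congrArg (algebraMap K F) s2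
      simp only [Fin.sum_univ_three, map_add, map_pow, map_one] at g1 g3
      simp only [vec, Fin.sum_univ_three, dot, map_sub, map_mul, map_add, map_ofNat, ha]
      linear_combination -x.1 ^ 2 * g1 - y.1 ^ 2 * g3 + x.1 ^ 2 * h2 + y.1 ^ 2 * h1
  refine (card_le_card hsub).trans (card_image_le.trans ?_)
  rw [card_product, card_univ]
  exact Nat.mul_le_mul_right _ (Rt_card_le F m hm0)

end Pool.Agent.H10.M546.Three
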