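import Pool.Agent.H10.M546.Asym

set_option autoImplicit false

/-!
The upper bound `α(d,4,s) ≤ d/(4s)` of Fraser.
-/

open Finset

namespace Pool.Agent.H10.M546

theorem sq_card_le_coll {ι G : Type} [DecidableEq G] (T : Finset ι) (f : ι → G) :
    T.card ^ 2 ≤ (T.image f).card * coll T f := by
  have h0 : ∀ t ∈ T, f t ∈ T.image f := fun t ht => mem_image_of_mem f ht
  rw [coll_eq_sum_sq T f (T.image f) h0, card_eq_sum_card_fiberwise h0]
  exact sq_sum_le_card_mul_sum_sq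

theorem energy_diff {F : Type} [Field F] [Fintype F] [DecidableEq F] (m : ℕ)
    (E : Finset (Fin (m + 1) → F)) :
    E.card ^ 4 ≤ (2 * Fintype.card F ^ m * (distSet E).card) * energy E := by
  have h1 := sq_card_le_coll (E ×ˢ E) (fun x => x.1 - x.2)
  rw [card_product] at h1
  have h2 : coll (E ×ˢ E) (fun x => x.1 - x.2) ≤ energy E := by
    unfold coll energy
    refine card_le_card_of_injOn (fun x => (x.1.1, x.2.2, x.2.1, x.1.2)) ?_ ?_
    · rintro ⟨⟨a, b⟩, ⟨c, d⟩⟩ h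
      simp only [mem_coe, mem_filter, mem_product] at h ⊢
      refine ⟨⟨h.1.1.1, h.1.2.2, h.1.2.1, h.1.1.2⟩, ?_⟩
      have := h.2
      rw [sub_eq_sub_iff_add_eq_add] at this
      exact this
    · rintro ⟨⟨a, b⟩, ⟨c, d⟩⟩ _ ⟨⟨a', b'⟩, ⟨c', d'⟩⟩ _ h
      simp only [Prod.mk.injEq] at h ⊢
      tauto
  have h3 : ((E ×ˢ E).image (fun x => x.1 - x.2)).card ≤
      2 * Fintype.card F ^ m * (distSet E).card := by
    have h4 : ((E ×ˢ E).image (fun x => x.1 - x.2)).card ≤ (2 * Fintype.card F ^ m) *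
        (((E ×ˢ E).image (fun x => x.1 - x.2)).image (fun z => ∑ i, z i ^ 2)).card := by
      refine card_le_mul_card_image _ _ fun b _ => ?_
      refine (card_le_card ?_).trans (Pool.H654R5.sphere_up m F b)
      intro z hz
      rw [mem_filter] at hz ⊢
      exact ⟨mem_univ _, hz.2⟩
    have h5 : ((E ×ˢ E).image (fun x => x.1 - x.2)).image (fun z => ∑ i, z i ^ 2) = distSet E := by
      rw [image_image]
      rfl
    rwa [h5] at h4
  calc E.card ^ 4 = (E.card * E.card) ^ 2 := by ring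
    _ ≤ _ := h1
    _ ≤ _ := Nat.mul_le_mul h3 h2

theorem upper (d : ℕ) (hd : 1 ≤ d) (s : ℝ) (hs : 0 < s) : Good d s ((d : ℝ) / (4 * s)) := by
  intro C0 hC0
  refine ⟨1, 1 / (4 * C0), one_pos, by positivity, ?_⟩
  intro F _ _ _ _ E hE hN
  obtain ⟨m, rfl⟩ : ∃ m, d = m + 1 := ⟨d - 1, by omega⟩
  have hq : (0 : ℝ) < Fintype.card F := by exact_mod_cast Fintype.card_pos
  rw [one_mul] at hN
  have hN0 : (0 : ℝ) < E.card := lt_of_lt_of_le (by positivity) hN
  have h1 : ((E.card ^ 4 : ℕ) : ℝ) ≤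
      (((2 * Fintype.card F ^ m * (distSet E).card) * energy E : ℕ) : ℝ) := by
    exact_mod_cast energy_diff m E
  push_cast at h1
  set q : ℝ := (Fintype.card F : ℝ) with hqd
  set N : ℝ := (E.card : ℝ) with hNd
  set D : ℝ := ((distSet E).card : ℝ) with hD
  have hD0 : 0 ≤ D := Nat.cast_nonneg _
  have h2 : q ^ ((m : ℝ) + 1) ≤ N ^ (4 * s) := by
    have := Real.rpow_le_rpow (by positivity) hN (by positivity : 0 ≤ 4 * s)
    rw [← Real.rpow_mul hq.le] at this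
    have e : ((m + 1 : ℕ) : ℝ) / (4 * s) * (4 * s) = (m : ℝ) + 1 := by
      push_cast
      field_simp
    rwa [e] at this
  have h3 : N ^ (4 - 4 * s) ≤ q ^ (-((m + 1 : ℕ) : ℝ)) * N ^ 4 := by
    have e1 : N ^ (4 - 4 * s) = N ^ 4 * (N ^ (4 * s))⁻¹ := by
      rw [Real.rpow_sub hN0, div_eq_mul_inv]
      norm_num
    have e2 : q ^ (-((m + 1 : ℕ) : ℝ)) = (q ^ ((m : ℝ) + 1))⁻¹ := by
      rw [Real.rpow_neg hq.le]
      push_cast
      rfl
    rw [e1, e2, mul_comm]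
    exact mul_le_mul_of_nonneg_right (inv_anti₀ (by positivity) h2) (by positivity)
  have h4 : (energy E : ℝ) ≤ C0 * (2 * (q ^ (-((m + 1 : ℕ) : ℝ)) * N ^ 4)) := by
    refine hE.trans (mul_le_mul_of_nonneg_left ?_ hC0.le)
    linarith
  have h5 : q ^ m * q ^ (-((m + 1 : ℕ) : ℝ)) = q⁻¹ := by
    rw [← Real.rpow_natCast, ← Real.rpow_add hq, ← Real.rpow_neg_one]
    congr 1
    push_cast
    ring
  have h6 : N ^ 4 ≤ (4 * C0 * D * q⁻¹) * N ^ 4 := by
    calc N ^ 4 ≤ 2 * q ^ m * D * (energy E : ℝ) := h1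
      _ ≤ 2 * q ^ m * D * (C0 * (2 * (q ^ (-((m + 1 : ℕ) : ℝ)) * N ^ 4))) :=
          mul_le_mul_of_nonneg_left h4 (by positivity)
      _ = (4 * C0 * D * (q ^ m * q ^ (-((m + 1 : ℕ) : ℝ)))) * N ^ 4 := by ring
      _ = _ := by rw [h5]
  have h7 : 1 ≤ 4 * C0 * D * q⁻¹ := by
    have hN4 : 0 < N ^ 4 := by positivity
    have : 1 * N ^ 4 ≤ (4 * C0 * D * q⁻¹) * N ^ 4 := by rw [one_mul]; exact h6
    exact le_of_mul_le_mul_right this hN4
  have h8 : q ≤ 4 * C0 * D := by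
    have := mul_le_mul_of_nonneg_right h7 hq.le
    rwa [one_mul, mul_assoc, inv_mul_cancel₀ hq.ne', mul_one] at this
  rw [one_div, ← div_eq_inv_mul, div_le_iff₀ (by positivity)]
  linarith

end Pool.Agent.H10.M546
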